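import Mathlib

open Polynomial Finset

namespace Pool.Agent.Lib.H66SC

/-- `∑ C(n,k) (-1)^k 2^(n-k) C(2k,k)` is `C(n,n/2)` for even `n` and `0` for odd `n`. -/
theorem sum_central (n : ℕ) :
    ∑ k ∈ range (n + 1), (n.choose k : ℤ) * (-1) ^ k * 2 ^ (n - k) * ((2 * k).choose k : ℤ)
      = if 2 ∣ n then (n.choose (n / 2) : ℤ) else 0 := by
  have h : ((-((1 + X) ^ 2) + 2 * X : ℤ[X])) ^ n = (-1) ^ n * (1 + X ^ 2) ^ n := by
    rw [← mul_pow]; ring
  have hl : (((-((1 + X) ^ 2) + 2 * X : ℤ[X])) ^ n).coeff n =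
      ∑ k ∈ range (n + 1), (n.choose k : ℤ) * (-1) ^ k * 2 ^ (n - k) * ((2 * k).choose k : ℤ) := by
    rw [add_pow, finsetSum_coeff]
    refine sum_congr rfl fun k hk => ?_
    have hk' : k ≤ n := Nat.lt_succ_iff.1 (mem_range.1 hk)
    have e : ((-((1 + X) ^ 2) : ℤ[X])) ^ k * (2 * X) ^ (n - k) * ((n.choose k : ℕ) : ℤ[X])
        = C ((n.choose k : ℤ) * (-1) ^ k * 2 ^ (n - k)) * ((1 + X) ^ (2 * k) * X ^ (n - k)) := by
      simp only [map_mul, map_pow, map_neg, map_one, map_natCast, map_ofNat]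
      rw [neg_pow, mul_pow, pow_mul]
      ring
    rw [e, coeff_C_mul, coeff_mul_X_pow', if_pos (Nat.sub_le n k), Nat.sub_sub_self hk',
      coeff_one_add_X_pow]
  have hr : (((-1) ^ n * (1 + X ^ 2) ^ n : ℤ[X])).coeff n
      = if 2 ∣ n then (n.choose (n / 2) : ℤ) else 0 := by
    have e : ((-1) ^ n * (1 + X ^ 2) ^ n : ℤ[X]) = C ((-1) ^ n) * expand ℤ 2 ((1 + X) ^ n) := by
      simp
    rw [e, coeff_C_mul, coeff_expand (by norm_num : 0 < 2)]
    split_ifs with hn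
    · rw [coeff_one_add_X_pow, (Even.neg_one_pow (even_iff_two_dvd.2 hn)), one_mul]
    · simp
  rw [← hl, h, hr]

end Pool.Agent.Lib.H66SC
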