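import Mathlib

open Finset

namespace Pool.Agent.Lib.H66SC

variable {R : Type*} [CommRing R]

/-- Powers in a ring in which `P ^ 2 = 0`. -/
lemma add_mul_pow_of_sq_eq_zero {P : R} (hP : P ^ 2 = 0) (x z : R) (n : ℕ) :
    (x + P * z) ^ n = x ^ n + P * (n * x ^ (n - 1) * z) := by
  induction n with
  | zero => simp
  | succ n ih =>
    rw [pow_succ, ih]
    rcases Nat.eq_zero_or_pos n with rfl | hn
    · simp
    · have e : x ^ n = x ^ (n - 1) * x := by
        rw [← pow_succ]; congr 1; omega
      simp only [Nat.add_sub_cancel]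
      push_cast
      have : P * P = 0 := by rw [← sq, hP]
      linear_combination ((n : R) * x ^ (n - 1) * z ^ 2) * this - P * n * z * e

/-- Two elements congruent modulo `p` have equal `p`-th powers if `p ^ 2 = 0`. -/
lemma pow_eq_pow_of_congr {p : ℕ} (hP : (p : R) ^ 2 = 0) {x y z : R} (h : x = y + p * z) :
    x ^ p = y ^ p := by
  rw [h, add_mul_pow_of_sq_eq_zero hP]
  have : (p : R) * ((p : R) * y ^ (p - 1) * z) = (p : R) ^ 2 * (y ^ (p - 1) * z) := by ring
  rw [this, hP]
  simp

/-- The cubic correction of a sign. -/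
lemma sign_cubic {P : R} (hP : P ^ 2 = 0) {t s z : R} (hs : s ^ 2 = 1) (h : t = s + P * z) :
    3 * t - t ^ 3 = 2 * s := by
  rw [h, add_mul_pow_of_sq_eq_zero hP s z 3]
  have h3 : s ^ 3 = s := by rw [pow_succ, hs, one_mul]
  rw [h3]
  push_cast
  simp only [hs]
  ring

/-- The product `∏ (x i + P)` to first order. -/
lemma prod_add_first_order {P : R} (hP : P ^ 2 = 0) (n : ℕ) (x y : ℕ → R) (u : ℕ → R)
    (hu : ∀ i < n, x i * u i = 1) :
    ∏ i ∈ range n, (x i + P * y i) = (∏ i ∈ range n, x i) * (1 + P * ∑ i ∈ range n, y i * u i) := by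
  induction n with
  | zero => simp
  | succ n ih =>
    rw [prod_range_succ, ih (fun i hi => hu i (by omega)), prod_range_succ, sum_range_succ]
    have h := hu n (by omega)
    have hPP : P * P = 0 := by rw [← sq, hP]
    linear_combination (∏ i ∈ range n, x i) * (y n * ∑ i ∈ range n, y i * u i) * hPP
      - (∏ i ∈ range n, x i) * P * y n * h

/-- Geometric sums over roots of unity. -/
lemma geom_root_zero {z v : R} {n : ℕ} (hz : z ^ n = 1) (hv : (z - 1) * v = 1) :
    ∑ e ∈ range n, z ^ e = 0 := by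
  have h := mul_geom_sum z n
  rw [hz, sub_self] at h
  calc ∑ e ∈ range n, z ^ e = (v * (z - 1)) * ∑ e ∈ range n, z ^ e := by
        rw [mul_comm v, hv, one_mul]
    _ = v * ((z - 1) * ∑ e ∈ range n, z ^ e) := by ring
    _ = 0 := by rw [h, mul_zero]

end Pool.Agent.Lib.H66SC
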