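import Mathlib
import Pool.Agent.Lib.H66SC.Ring

open Finset Polynomial

namespace Pool.Agent.Lib.H66SC

variable {p : ℕ} [hp : Fact p.Prime]

/-- The reduction `ZMod (p ^ 2) → ZMod p`. -/
noncomputable def red (p : ℕ) : ZMod (p ^ 2) →+* ZMod p := ZMod.castHom (dvd_pow_self p two_ne_zero) (ZMod p)

lemma P_sq (p : ℕ) : ((p : ℕ) : ZMod (p ^ 2)) ^ 2 = 0 := by
  rw [← Nat.cast_pow, ZMod.natCast_self]

lemma red_P (p : ℕ) : red p (p : ZMod (p ^ 2)) = 0 := by
  rw [map_natCast, ZMod.natCast_self]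

lemma red_ker {a : ZMod (p ^ 2)} (h : red p a = 0) : ∃ b, a = (p : ZMod (p ^ 2)) * b := by
  have : NeZero (p ^ 2) := ⟨pow_ne_zero 2 hp.out.ne_zero⟩
  have h1 : ((a.val : ℕ) : ZMod p) = 0 := by
    rw [← h, ← map_natCast (red p), ZMod.natCast_zmod_val]
  obtain ⟨c, hc⟩ := (ZMod.natCast_eq_zero_iff _ _).1 h1
  refine ⟨(c : ZMod (p ^ 2)), ?_⟩
  rw [← Nat.cast_mul, ← hc, ZMod.natCast_zmod_val]

lemma red_congr {a b : ZMod (p ^ 2)} (h : red p a = red p b) :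
    ∃ c, a = b + (p : ZMod (p ^ 2)) * c := by
  obtain ⟨c, hc⟩ := red_ker (p := p) (a := a - b) (by rw [map_sub, h, sub_self])
  exact ⟨c, by rw [← hc]; ring⟩

lemma P_mul_congr {a b : ZMod (p ^ 2)} (h : red p a = red p b) :
    (p : ZMod (p ^ 2)) * a = (p : ZMod (p ^ 2)) * b := by
  obtain ⟨c, hc⟩ := red_congr h
  rw [hc]
  have := P_sq p
  linear_combination c * this

lemma red_surj (y : ZMod p) : ∃ a : ZMod (p ^ 2), red p a = y :=
  ZMod.castHom_surjective (dvd_pow_self p two_ne_zero) y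

lemma isUnit_of_red {a : ZMod (p ^ 2)} (h : red p a ≠ 0) : IsUnit a := by
  obtain ⟨b, hb⟩ := red_surj ((red p a)⁻¹)
  obtain ⟨c, hc⟩ := red_congr (p := p) (a := a * b) (b := 1) (by
    rw [map_mul, hb, map_one, mul_inv_cancel₀ h])
  refine isUnit_iff_exists_inv.2 ⟨b * (1 - p * c), ?_⟩
  have := P_sq p
  linear_combination (1 - (p : ZMod (p ^ 2)) * c) * hc - c ^ 2 * this

lemma isUnit_natCast {n : ℕ} (h : ¬ p ∣ n) : IsUnit (n : ZMod (p ^ 2)) := by
  refine isUnit_of_red ?_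
  rw [map_natCast]
  exact fun h' => h ((ZMod.natCast_eq_zero_iff _ _).1 h')

lemma natCast_mul_inv {n : ℕ} (h : ¬ p ∣ n) :
    (n : ZMod (p ^ 2)) * (n : ZMod (p ^ 2))⁻¹ = 1 :=
  ZMod.mul_inv_of_unit _ (isUnit_natCast h)

lemma red_inv {a : ZMod (p ^ 2)} (h : IsUnit a) : red p (a⁻¹) = (red p a)⁻¹ := by
  have := congrArg (red p) (ZMod.mul_inv_of_unit a h)
  rw [map_mul, map_one] at this
  exact (eq_inv_of_mul_eq_one_right this)

lemma not_dvd_factorial {k : ℕ} (h : k < p) : ¬ p ∣ k.factorial := by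
  rw [hp.out.dvd_factorial]; omega

/-- A polynomial that vanishes modulo `p` is locally constant. -/
lemma eval_add_of_map_eq_zero (f : (ZMod (p ^ 2))[X]) (h : f.map (red p) = 0)
    (x y : ZMod (p ^ 2)) : f.eval (x + (p : ZMod (p ^ 2)) * y) = f.eval x := by
  rw [eval_eq_sum_range, eval_eq_sum_range]
  refine sum_congr rfl fun i _ => ?_
  have hc : red p (f.coeff i) = 0 := by
    rw [← coeff_map, h, coeff_zero]
  obtain ⟨b, hb⟩ := red_ker hc
  rw [hb, add_mul_pow_of_sq_eq_zero (P_sq p)]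
  have := P_sq p
  linear_combination b * ((i : ZMod (p ^ 2)) * x ^ (i - 1) * y) * this

end Pool.Agent.Lib.H66SC
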