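import Mathlib
import Pool.Agent.Lib.H66SC.Ring
import Pool.Agent.Lib.H66SC.Central
import Pool.Agent.Lib.H66SC.Zp2

open Finset Polynomial

namespace Pool.Agent.Lib.H66SC

variable {p : ℕ} [hp : Fact p.Prime]

/-- The coefficient `(-1)^k C(2k,k) / 2^k`, which is `C(-1/2,k) 2^k`. -/
noncomputable def beta (p k : ℕ) : ZMod (p ^ 2) :=
  (-1) ^ k * ((2 * k).choose k : ℕ) * ((2 : ℕ) : ZMod (p ^ 2))⁻¹ ^ k

/-- The truncated sum as a polynomial in the upper parameter. -/
noncomputable def SA (p : ℕ) : (ZMod (p ^ 2))[X] :=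
  ∑ k ∈ range p, C (beta p k * ((k.factorial : ℕ) : ZMod (p ^ 2))⁻¹) * descPochhammer (ZMod (p ^ 2)) k

lemma two_inv (h2 : p ≠ 2) : ((2 : ℕ) : ZMod (p ^ 2)) * ((2 : ℕ) : ZMod (p ^ 2))⁻¹ = 1 := by
  apply natCast_mul_inv
  intro h
  exact h2 ((Nat.prime_dvd_prime_iff_eq hp.out Nat.prime_two).1 h)

lemma SA_eval_nat_sum (n : ℕ) :
    (SA p).eval (n : ZMod (p ^ 2)) = ∑ k ∈ range p, (n.choose k : ZMod (p ^ 2)) * beta p k := by
  unfold SA
  rw [eval_finsetSum]
  refine sum_congr rfl fun k hk => ?_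
  rw [eval_mul, eval_C, descPochhammer_eval_eq_descFactorial, Nat.descFactorial_eq_factorial_mul_choose]
  have := natCast_mul_inv (not_dvd_factorial (p := p) (mem_range.1 hk))
  push_cast
  linear_combination (beta p k * (n.choose k : ZMod (p ^ 2))) * this

/-- The value of the sum at natural numbers below `p`. -/
lemma SA_eval_nat (h2 : p ≠ 2) {n : ℕ} (hn : n < p) :
    (SA p).eval (n : ZMod (p ^ 2)) =
      ((2 : ℕ) : ZMod (p ^ 2))⁻¹ ^ n * (if 2 ∣ n then (n.choose (n / 2) : ZMod (p ^ 2)) else 0) := by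
  rw [SA_eval_nat_sum]
  have h1 : ∑ k ∈ range p, (n.choose k : ZMod (p ^ 2)) * beta p k
      = ∑ k ∈ range (n + 1), (n.choose k : ZMod (p ^ 2)) * beta p k := by
    symm
    apply sum_subset (range_subset_range.2 hn)
    intro k _ hk
    rw [mem_range, not_lt] at hk
    rw [Nat.choose_eq_zero_of_lt (by omega)]
    simp
  rw [h1]
  have h3 := congrArg (Int.cast : ℤ → ZMod (p ^ 2)) (sum_central n)
  have h2' := two_inv (p := p) h2
  have h4 : (if 2 ∣ n then (n.choose (n / 2) : ZMod (p ^ 2)) else 0)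
      = ((if 2 ∣ n then (n.choose (n / 2) : ℤ) else 0 : ℤ) : ZMod (p ^ 2)) := by
    split_ifs <;> simp
  rw [h4, ← h3]
  push_cast
  rw [mul_sum]
  refine sum_congr rfl fun k hk => ?_
  have hk' : k ≤ n := Nat.lt_succ_iff.1 (mem_range.1 hk)
  unfold beta
  have e : ((2 : ℕ) : ZMod (p ^ 2))⁻¹ ^ n * (2 : ZMod (p ^ 2)) ^ (n - k) = ((2 : ℕ) : ZMod (p ^ 2))⁻¹ ^ k := by
    have : ((2 : ℕ) : ZMod (p ^ 2))⁻¹ ^ n
        = ((2 : ℕ) : ZMod (p ^ 2))⁻¹ ^ k * ((2 : ℕ) : ZMod (p ^ 2))⁻¹ ^ (n - k) := by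
      rw [← pow_add]; congr 1; omega
    rw [this, mul_assoc, ← mul_pow]
    have h2'' : ((2 : ℕ) : ZMod (p ^ 2))⁻¹ * (2 : ZMod (p ^ 2)) = 1 := by
      rw [mul_comm]; exact_mod_cast h2'
    rw [h2'', one_pow, mul_one]
  rw [← e]
  push_cast
  ring

/-- The polynomial with the odd numbers `1, 3, …, 2m-1` as its roots. -/
noncomputable def QA (p m : ℕ) : (ZMod (p ^ 2))[X] :=
  ∏ i ∈ range m, (X - C ((2 * i + 1 : ℕ) : ZMod (p ^ 2)))

lemma red_beta_eq_zero {m k : ℕ} (hm : p = 2 * m + 1) (hk : k < p) (hmk : m < k) :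
    red p (beta p k) = 0 := by
  unfold beta
  have h : p ∣ (2 * k).choose k := by
    have h1 : p ∣ (2 * k).factorial := (hp.out.dvd_factorial).2 (by omega)
    have h2 : (2 * k).choose k * k.factorial * (2 * k - k).factorial = (2 * k).factorial :=
      Nat.choose_mul_factorial_mul_factorial (by omega)
    rw [← h2] at h1
    have h3 : ¬ p ∣ k.factorial := not_dvd_factorial hk
    have h4 : ¬ p ∣ (2 * k - k).factorial := by
      rw [show 2 * k - k = k by omega]; exact h3
    rcases (hp.out.dvd_mul).1 h1 with h5 | h5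
    · rcases (hp.out.dvd_mul).1 h5 with h6 | h6
      · exact h6
      · exact absurd h6 h3
    · exact absurd h5 h4
  have : ((((2 * k).choose k : ℕ)) : ZMod p) = 0 := (ZMod.natCast_eq_zero_iff _ _).2 h
  rw [map_mul, map_mul, map_natCast, this]
  ring

lemma QA_eval_zero_isUnit {m : ℕ} (hm : p = 2 * m + 1) : IsUnit ((QA p m).eval 0) := by
  unfold QA
  rw [eval_prod]
  apply isUnit_of_red
  rw [map_prod, prod_ne_zero_iff]
  intro i hi
  rw [mem_range] at hi
  rw [eval_sub, eval_X, eval_C, map_sub, map_zero, map_natCast, zero_sub, neg_ne_zero]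
  intro h
  have := Nat.le_of_dvd (by omega) ((ZMod.natCast_eq_zero_iff _ _).1 h)
  omega

lemma SA_sub_QA (h2 : p ≠ 2) {m : ℕ} (hm : p = 2 * m + 1) :
    (SA p - C ((QA p m).eval 0)⁻¹ * QA p m).map (red p) = 0 := by
  have hu := QA_eval_zero_isUnit (p := p) hm
  set c := ((QA p m).eval 0)⁻¹ with hc
  set D := SA p - C c * QA p m with hD
  have hdeg : (D.map (red p)).natDegree ≤ m := by
    rw [hD, Polynomial.map_sub]
    refine (natDegree_sub_le _ _).trans (max_le ?_ ?_)
    · unfold SA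
      rw [Polynomial.map_sum]
      refine natDegree_sum_le_of_forall_le _ _ fun k hk => ?_
      rw [mem_range] at hk
      rw [Polynomial.map_mul, map_C, descPochhammer_map]
      by_cases hmk : m < k
      · rw [map_mul, red_beta_eq_zero hm hk hmk, zero_mul, map_zero, zero_mul]
        simp
      · refine (natDegree_C_mul_le _ _).trans ?_
        rw [descPochhammer_natDegree]
        omega
    · rw [Polynomial.map_mul, map_C]
      refine (natDegree_C_mul_le _ _).trans ?_
      unfold QA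
      rw [Polynomial.map_prod]
      refine (natDegree_prod_le _ _).trans ?_
      refine (sum_le_card_nsmul _ _ 1 fun i _ => ?_).trans (by simp)
      rw [Polynomial.map_sub, map_X, map_C]
      exact natDegree_X_sub_C_le _
  have heval : ∀ n : ℕ, n < p → (n = 0 ∨ ¬ 2 ∣ n) → (D.map (red p)).eval (n : ZMod p) = 0 := by
    intro n hn h
    have e : (D.map (red p)).eval (n : ZMod p) = red p (D.eval (n : ZMod (p ^ 2))) := by
      rw [← map_natCast (red p), eval_map, eval₂_at_apply]
    rw [e, hD, eval_sub, eval_mul, eval_C, SA_eval_nat h2 hn]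
    rcases h with rfl | h
    · rw [hc]
      have := ZMod.inv_mul_of_unit _ hu
      simp only [Nat.cast_zero, pow_zero, dvd_zero, if_true, Nat.choose_self, Nat.zero_div]
      rw [Nat.cast_one, mul_one, this, sub_self, map_zero]
    · rw [if_neg h, mul_zero, zero_sub, map_neg, map_mul]
      have : (QA p m).eval (n : ZMod (p ^ 2)) = 0 := by
        unfold QA
        rw [eval_prod]
        have hi : (n - 1) / 2 ∈ range m := by
          rw [mem_range]; omega
        refine prod_eq_zero hi ?_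
        rw [eval_sub, eval_X, eval_C, sub_eq_zero]
        congr 1
        omega
      rw [this, map_zero, mul_zero, neg_zero]
  refine eq_zero_of_natDegree_lt_card_of_eval_eq_zero (D.map (red p))
    (f := fun i : Fin (m + 1) => ((2 * (i : ℕ) - 1 : ℕ) : ZMod p)) ?_ ?_ ?_
  · intro i j hij
    have hi := i.2
    have hj := j.2
    have h := congrArg ZMod.val hij
    simp only at h
    rw [ZMod.val_cast_of_lt (by omega), ZMod.val_cast_of_lt (by omega)] at h
    apply Fin.ext
    omega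
  · intro i
    have hi := i.2
    apply heval _ (by omega)
    omega
  · rw [Fintype.card_fin]; omega

/-- First-order variation of the truncated sum in its upper parameter. -/
lemma SA_eval_add (h2 : p ≠ 2) {m : ℕ} (hm : p = 2 * m + 1) {j : ℕ} (hj : j ≤ m)
    (t : ZMod (p ^ 2)) :
    (SA p).eval (((2 * j : ℕ) : ZMod (p ^ 2)) + (p : ZMod (p ^ 2)) * t) =
      (SA p).eval ((2 * j : ℕ) : ZMod (p ^ 2)) *
        (1 + (p : ZMod (p ^ 2)) * (t * ∑ i ∈ range m,
          (((2 * j : ℕ) : ZMod (p ^ 2)) - ((2 * i + 1 : ℕ) : ZMod (p ^ 2)))⁻¹)) := by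
  set c := ((QA p m).eval 0)⁻¹ with hc
  set x : ZMod (p ^ 2) := ((2 * j : ℕ) : ZMod (p ^ 2)) with hx
  have hmap := SA_sub_QA (p := p) h2 hm
  rw [← hc] at hmap
  have h1 := eval_add_of_map_eq_zero _ hmap x t
  rw [eval_sub, eval_sub, eval_mul, eval_mul, eval_C, eval_C] at h1
  have hunit : ∀ i < m, (x - ((2 * i + 1 : ℕ) : ZMod (p ^ 2))) *
      (x - ((2 * i + 1 : ℕ) : ZMod (p ^ 2)))⁻¹ = 1 := by
    intro i hi
    apply ZMod.mul_inv_of_unit
    apply isUnit_of_red
    rw [map_sub, hx, map_natCast, map_natCast, sub_ne_zero]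
    intro h
    have h' := congrArg ZMod.val h
    rw [ZMod.val_cast_of_lt (by omega), ZMod.val_cast_of_lt (by omega)] at h'
    omega
  have hQ1 : (QA p m).eval (x + (p : ZMod (p ^ 2)) * t) =
      (QA p m).eval x * (1 + (p : ZMod (p ^ 2)) * ∑ i ∈ range m, t *
        (x - ((2 * i + 1 : ℕ) : ZMod (p ^ 2)))⁻¹) := by
    unfold QA
    rw [eval_prod, eval_prod]
    simp only [eval_sub, eval_X, eval_C]
    rw [← prod_add_first_order (P_sq p) m _ _ _ hunit]
    refine prod_congr rfl fun i _ => ?_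
    ring
  rw [← mul_sum] at hQ1
  rw [hQ1] at h1
  have h3 : (p : ZMod (p ^ 2)) * (SA p).eval x = (p : ZMod (p ^ 2)) * (c * (QA p m).eval x) := by
    apply P_mul_congr
    have := congrArg (fun f => f.eval (red p x)) hmap
    simp only [eval_zero] at this
    rw [eval_map, eval₂_at_apply, eval_sub, eval_mul, eval_C, map_sub, sub_eq_zero] at this
    exact this
  linear_combination h1 - (t * ∑ i ∈ range m, (x - ((2 * i + 1 : ℕ) : ZMod (p ^ 2)))⁻¹) * h3

end Pool.Agent.Lib.H66SC
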