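import Mathlib
import Pool.Agent.Lib.H66SC.SEval

open Finset Polynomial

namespace Pool.Agent.Lib.H66SC

variable {p : ℕ} [hp : Fact p.Prime]

/-- Harmonic numbers in `ZMod p`. -/
noncomputable def HK (p n : ℕ) : ZMod p := ∑ i ∈ range n, ((i + 1 : ℕ) : ZMod p)⁻¹

lemma HK_succ (n : ℕ) : HK p (n + 1) = HK p n + ((n + 1 : ℕ) : ZMod p)⁻¹ := by
  unfold HK; rw [sum_range_succ]

lemma natCast_ne_zero_of_lt {n : ℕ} (h0 : 0 < n) (h : n < p) : (n : ZMod p) ≠ 0 := by
  intro h'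
  have := Nat.le_of_dvd h0 ((ZMod.natCast_eq_zero_iff _ _).1 h')
  omega

lemma natCast_p : ((p : ℕ) : ZMod p) = 0 := ZMod.natCast_self p

/-- The reflection of harmonic numbers. -/
lemma HK_reflect {m : ℕ} (hm : p = 2 * m + 1) (d : ℕ) (hd : d ≤ m) :
    HK p (m + d) = HK p (m - d) := by
  induction d with
  | zero => rfl
  | succ d ih =>
    have h1 : HK p (m - d) = HK p (m - (d + 1)) + ((m - d : ℕ) : ZMod p)⁻¹ := by
      have := HK_succ (p := p) (m - (d + 1))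
      rw [show m - (d + 1) + 1 = m - d by omega] at this
      exact this
    rw [← add_assoc, HK_succ, ih (by omega), h1]
    have h2 : ((m + d + 1 : ℕ) : ZMod p) = -((m - d : ℕ) : ZMod p) := by
      rw [eq_neg_iff_add_eq_zero, ← Nat.cast_add, show m + d + 1 + (m - d) = p by omega]
      exact natCast_p
    rw [h2, inv_neg]
    ring

lemma HK_sub {a b : ℕ} (h : b ≤ a) :
    ∑ i ∈ range b, ((a - i : ℕ) : ZMod p)⁻¹ = HK p a - HK p (a - b) := by
  induction b with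
  | zero => simp
  | succ b ih =>
    rw [sum_range_succ, ih (by omega)]
    have := HK_succ (p := p) (a - (b + 1))
    rw [show a - (b + 1) + 1 = a - b by omega] at this
    rw [this]
    ring

lemma two_ne_zero_K (h2 : p ≠ 2) : (2 : ZMod p) ≠ 0 := by
  intro h
  have : ((2 : ℕ) : ZMod p) = 0 := by exact_mod_cast h
  exact h2 ((Nat.prime_dvd_prime_iff_eq hp.out Nat.prime_two).1 ((ZMod.natCast_eq_zero_iff _ _).1 this))

lemma sum_odd_inv {m : ℕ} (hm : p = 2 * m + 1) {j : ℕ} (hj : j ≤ m) :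
    ∑ i ∈ range m, (((2 * j : ℕ) : ZMod p) - ((2 * i + 1 : ℕ) : ZMod p))⁻¹
      = 2⁻¹ * (HK p (m - j) - HK p j) := by
  have h1 : ∀ i ∈ range m, (((2 * j : ℕ) : ZMod p) - ((2 * i + 1 : ℕ) : ZMod p))⁻¹
      = 2⁻¹ * ((m + j - i : ℕ) : ZMod p)⁻¹ := by
    intro i hi
    rw [mem_range] at hi
    rw [← mul_inv]
    congr 1
    have hp0 := congrArg (Nat.cast : ℕ → ZMod p) hm
    rw [natCast_p] at hp0
    push_cast [Nat.cast_sub (show i ≤ m + j by omega)] at hp0 ⊢
    linear_combination hp0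
  rw [sum_congr rfl h1, ← mul_sum, HK_sub (by omega), show m + j - m = j by omega,
    HK_reflect hm j hj]

lemma red_two_inv (h2 : p ≠ 2) : red p (((2 : ℕ) : ZMod (p ^ 2))⁻¹) = (2 : ZMod p)⁻¹ := by
  rw [red_inv (p := p) (isUnit_iff_exists_inv.2 ⟨_, two_inv h2⟩), map_natCast]
  simp

/-- The central binomial coefficient to first order. -/
lemma central_first_order (h2 : p ≠ 2) {m : ℕ} (hm : p = 2 * m + 1) {j : ℕ} (hj : j ≤ m) :
    ((2 : ℕ) : ZMod (p ^ 2))⁻¹ ^ (2 * j) * ((2 * j).choose j : ℕ)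
      = (-1) ^ j * (m.choose j : ZMod (p ^ 2)) *
        (1 + (p : ZMod (p ^ 2)) * ∑ i ∈ range j, (-((2 : ℕ) : ZMod (p ^ 2))⁻¹) * ((m - i : ℕ) : ZMod (p ^ 2))⁻¹) := by
  set hf := ((2 : ℕ) : ZMod (p ^ 2))⁻¹ with hhf
  have h2' : (2 : ZMod (p ^ 2)) * hf = 1 := by exact_mod_cast two_inv (p := p) h2
  have e1 : ∀ j : ℕ, ((j.factorial : ℕ) : ZMod (p ^ 2)) * (hf ^ (2 * j) * ((2 * j).choose j : ℕ))
      = ∏ i ∈ range j, (((2 * i + 1 : ℕ) : ZMod (p ^ 2)) * hf) := by
    intro j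
    induction j with
    | zero => simp
    | succ j ih =>
      rw [prod_range_succ, ← ih]
      have h := congrArg (Nat.cast : ℕ → ZMod (p ^ 2)) (Nat.succ_mul_centralBinom_succ j)
      simp only [Nat.centralBinom] at h
      rw [Nat.factorial_succ]
      push_cast at h ⊢
      rw [show hf ^ (2 * (j + 1)) = hf ^ (2 * j) * hf * hf by ring]
      linear_combination ((j.factorial : ℕ) : ZMod (p ^ 2)) * hf ^ (2 * j) * hf * hf * h
        + ((j.factorial : ℕ) : ZMod (p ^ 2)) * hf ^ (2 * j) * hf * (2 * (j : ZMod (p ^ 2)) + 1)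
          * ((2 * j).choose j : ℕ) * h2'
  have hunit : ∀ i < j, ((m - i : ℕ) : ZMod (p ^ 2)) * ((m - i : ℕ) : ZMod (p ^ 2))⁻¹ = 1 := by
    intro i hi
    apply natCast_mul_inv
    intro h
    have := Nat.le_of_dvd (by omega) h
    omega
  have e2 : ∏ i ∈ range j, (((2 * i + 1 : ℕ) : ZMod (p ^ 2)) * hf)
      = (-1) ^ j * ∏ i ∈ range j, (((m - i : ℕ) : ZMod (p ^ 2)) + (p : ZMod (p ^ 2)) * (-hf)) := by
    rw [← card_range j, ← prod_const, card_range, ← prod_mul_distrib]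
    refine prod_congr rfl fun i hi => ?_
    rw [mem_range] at hi
    have hpc : ((p : ℕ) : ZMod (p ^ 2)) = 2 * (m : ZMod (p ^ 2)) + 1 := by
      have := congrArg (Nat.cast : ℕ → ZMod (p ^ 2)) hm
      push_cast at this
      exact this
    push_cast [Nat.cast_sub (show i ≤ m by omega)]
    rw [hpc]
    linear_combination (-(m : ZMod (p ^ 2)) + i) * h2'
  have e3 : ∏ i ∈ range j, ((m - i : ℕ) : ZMod (p ^ 2))
      = ((j.factorial : ℕ) : ZMod (p ^ 2)) * (m.choose j : ZMod (p ^ 2)) := by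
    rw [← Nat.cast_prod, ← Nat.descFactorial_eq_prod_range, Nat.descFactorial_eq_factorial_mul_choose]
    push_cast
    ring
  have hju : ((j.factorial : ℕ) : ZMod (p ^ 2)) * ((j.factorial : ℕ) : ZMod (p ^ 2))⁻¹ = 1 :=
    natCast_mul_inv (not_dvd_factorial (by omega))
  have e4 := e1 j
  rw [e2, prod_add_first_order (P_sq p) j _ _ _ hunit, e3] at e4
  linear_combination ((j.factorial : ℕ) : ZMod (p ^ 2))⁻¹ * e4 - (hf ^ (2 * j) * ((2 * j).choose j : ℕ)) * hju
    + ((-1) ^ j * (m.choose j : ZMod (p ^ 2)) *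
        (1 + (p : ZMod (p ^ 2)) * ∑ i ∈ range j, (-hf) * ((m - i : ℕ) : ZMod (p ^ 2))⁻¹)) * hju

/-- The value of the truncated sum at `2 j + p t`. `g` is any lift of the first-order term. -/
lemma SA_value (h2 : p ≠ 2) {m : ℕ} (hm : p = 2 * m + 1) {j : ℕ} (hj : j ≤ m)
    (t g : ZMod (p ^ 2))
    (hg : red p g = 2⁻¹ * (red p t * (HK p (m - j) - HK p j) - (HK p m - HK p (m - j)))) :
    (SA p).eval (((2 * j : ℕ) : ZMod (p ^ 2)) + (p : ZMod (p ^ 2)) * t) =
      (-1) ^ j * (m.choose j : ZMod (p ^ 2)) * (1 + (p : ZMod (p ^ 2)) * g) := by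
  rw [SA_eval_add h2 hm hj, SA_eval_nat h2 (by omega), if_pos (dvd_mul_right 2 j),
    Nat.mul_div_cancel_left j (by norm_num), central_first_order h2 hm hj]
  set s1 := ∑ i ∈ range j, (-((2 : ℕ) : ZMod (p ^ 2))⁻¹) * ((m - i : ℕ) : ZMod (p ^ 2))⁻¹ with hs1
  set s2 := t * ∑ i ∈ range m, (((2 * j : ℕ) : ZMod (p ^ 2)) - ((2 * i + 1 : ℕ) : ZMod (p ^ 2)))⁻¹ with hs2
  have hPP := P_sq p
  have h1 : red p s1 = -2⁻¹ * (HK p m - HK p (m - j)) := by
    rw [hs1, map_sum, ← HK_sub hj, mul_sum]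
    refine sum_congr rfl fun i hi => ?_
    rw [mem_range] at hi
    rw [map_mul, map_neg, red_two_inv h2, red_inv, map_natCast]
    apply isUnit_natCast
    intro h
    have := Nat.le_of_dvd (by omega) h
    omega
  have h3 : red p s2 = red p t * (2⁻¹ * (HK p (m - j) - HK p j)) := by
    rw [hs2, map_mul, map_sum, ← sum_odd_inv hm hj]
    congr 1
    refine sum_congr rfl fun i hi => ?_
    rw [mem_range] at hi
    rw [red_inv, map_sub, map_natCast, map_natCast]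
    apply isUnit_of_red
    rw [map_sub, map_natCast, map_natCast, sub_ne_zero]
    intro h
    have h' := congrArg ZMod.val h
    rw [ZMod.val_cast_of_lt (by omega), ZMod.val_cast_of_lt (by omega)] at h'
    omega
  have h4 : (p : ZMod (p ^ 2)) * g = (p : ZMod (p ^ 2)) * (s1 + s2) := by
    apply P_mul_congr
    rw [hg, map_add, h1, h3]
    ring
  rw [h4]
  linear_combination ((-1) ^ j * (m.choose j : ZMod (p ^ 2)) * (s1 * s2)) * hPP

end Pool.Agent.Lib.H66SC
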