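import Mathlib
import Pool.Agent.Lib.H66SC.Harm

open Finset Polynomial

namespace Pool.Agent.Lib.H66SC

variable {p : ℕ} [hp : Fact p.Prime]

/-- `a! (p-1-a)! = (-1)^(a+1)` modulo `p`. -/
lemma wilson_split (a : ℕ) (ha : a < p) :
    ((a.factorial : ℕ) : ZMod p) * (((p - 1 - a).factorial : ℕ) : ZMod p) = (-1) ^ (a + 1) := by
  induction a with
  | zero =>
    have := ZMod.wilsons_lemma (p := p)
    simp [this]
  | succ a ih =>
    have h1 := ih (by omega)
    have h2 : (p - 1 - a).factorial = (p - 1 - a) * (p - 1 - (a + 1)).factorial := by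
      rw [show p - 1 - a = (p - 1 - (a + 1)) + 1 by omega, Nat.factorial_succ]
    have h3 : ((p - 1 - a : ℕ) : ZMod p) = -((a + 1 : ℕ) : ZMod p) := by
      rw [eq_neg_iff_add_eq_zero, ← Nat.cast_add, show p - 1 - a + (a + 1) = p by omega]
      exact natCast_p
    rw [h2, Nat.cast_mul, h3] at h1
    rw [Nat.factorial_succ]
    push_cast at h1 ⊢
    linear_combination -h1

/-- `(m!)^2 = (-1)^(m+1)` modulo `p = 2m+1`. -/
lemma factorial_sq {m : ℕ} (hm : p = 2 * m + 1) :
    ((m.factorial : ℕ) : ZMod p) ^ 2 = (-1) ^ (m + 1) := by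
  have := wilson_split (p := p) m (by omega)
  rw [show p - 1 - m = m by omega] at this
  rw [sq, this]

/-- First-order expansion of `C(3m,k)` for `k < m`. -/
lemma choose_small {m : ℕ} (hm : p = 2 * m + 1) {k : ℕ} (hk : k < m) :
    ((3 * m).choose k : ZMod (p ^ 2)) = ((m - 1).choose k : ZMod (p ^ 2)) *
      (1 + (p : ZMod (p ^ 2)) * ∑ i ∈ range k, 1 * ((m - 1 - i : ℕ) : ZMod (p ^ 2))⁻¹) := by
  have hunit : ∀ i < k, ((m - 1 - i : ℕ) : ZMod (p ^ 2)) * ((m - 1 - i : ℕ) : ZMod (p ^ 2))⁻¹ = 1 := by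
    intro i hi
    apply natCast_mul_inv
    intro h
    have := Nat.le_of_dvd (by omega) h
    omega
  have e1 : ((k.factorial : ℕ) : ZMod (p ^ 2)) * ((3 * m).choose k : ZMod (p ^ 2))
      = ∏ i ∈ range k, (((m - 1 - i : ℕ) : ZMod (p ^ 2)) + (p : ZMod (p ^ 2)) * 1) := by
    rw [← Nat.cast_mul, ← Nat.descFactorial_eq_factorial_mul_choose, Nat.descFactorial_eq_prod_range,
      Nat.cast_prod]
    refine prod_congr rfl fun i hi => ?_
    rw [mem_range] at hi
    rw [mul_one, ← Nat.cast_add]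
    congr 1
    omega
  have e3 : ∏ i ∈ range k, ((m - 1 - i : ℕ) : ZMod (p ^ 2))
      = ((k.factorial : ℕ) : ZMod (p ^ 2)) * ((m - 1).choose k : ZMod (p ^ 2)) := by
    rw [← Nat.cast_prod, ← Nat.descFactorial_eq_prod_range, Nat.descFactorial_eq_factorial_mul_choose]
    push_cast
    ring
  rw [prod_add_first_order (P_sq p) k _ _ _ hunit, e3] at e1
  have hju : ((k.factorial : ℕ) : ZMod (p ^ 2)) * ((k.factorial : ℕ) : ZMod (p ^ 2))⁻¹ = 1 :=
    natCast_mul_inv (not_dvd_factorial (by omega))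
  linear_combination ((k.factorial : ℕ) : ZMod (p ^ 2))⁻¹ * e1
    - ((3 * m).choose k : ZMod (p ^ 2)) * hju
    + ((m - 1).choose k : ZMod (p ^ 2)) *
      (1 + (p : ZMod (p ^ 2)) * ∑ i ∈ range k, 1 * ((m - 1 - i : ℕ) : ZMod (p ^ 2))⁻¹) * hju

lemma red_sum_small {m : ℕ} (hm : p = 2 * m + 1) {k : ℕ} (hk : k < m) :
    red p (∑ i ∈ range k, 1 * ((m - 1 - i : ℕ) : ZMod (p ^ 2))⁻¹)
      = HK p (m - 1) - HK p (m - 1 - k) := by
  rw [map_sum, ← HK_sub (by omega)]
  refine sum_congr rfl fun i hi => ?_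
  rw [mem_range] at hi
  rw [one_mul, red_inv, map_natCast]
  apply isUnit_natCast
  intro h
  have := Nat.le_of_dvd (by omega) h
  omega

lemma choose_ne_zero_K {m a : ℕ} (hm : m < p) (ha : a ≤ m) : ((m.choose a : ℕ) : ZMod p) ≠ 0 := by
  intro h
  have h1 := (ZMod.natCast_eq_zero_iff _ _).1 h
  have h2 := Nat.choose_mul_factorial_mul_factorial ha
  have h3 : p ∣ m.factorial := by
    rw [← h2, mul_assoc]; exact dvd_mul_of_dvd_left h1 _
  exact not_dvd_factorial hm h3

/-- The middle coefficients `C(3m, m+a)` are `-2 p / C(m,a)`. -/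
lemma choose_middle {m : ℕ} (hm : p = 2 * m + 1) (hm0 : 0 < m) {a : ℕ} (ha : a ≤ m) {z : ZMod (p ^ 2)}
    (hz : red p z = -2 * ((m.choose a : ℕ) : ZMod p)⁻¹) :
    ((3 * m).choose (m + a) : ZMod (p ^ 2)) = (p : ZMod (p ^ 2)) * z := by
  have h1 := Nat.choose_mul_factorial_mul_factorial (show m + a ≤ 3 * m by omega)
  have h2 : (3 * m).factorial = p * ((p - 1).factorial * (p + 1).ascFactorial (m - 1)) := by
    have := Nat.factorial_mul_ascFactorial p (m - 1)
    rw [show p + (m - 1) = 3 * m by omega] at this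
    rw [← this, ← Nat.mul_factorial_pred hp.out.ne_zero]
    ring
  rw [h2] at h1
  have hu1 : ((((m + a).factorial : ℕ)) : ZMod (p ^ 2)) * ((((m + a).factorial : ℕ)) : ZMod (p ^ 2))⁻¹ = 1 :=
    natCast_mul_inv (not_dvd_factorial (by omega))
  have hu2 : ((((3 * m - (m + a)).factorial : ℕ)) : ZMod (p ^ 2)) *
      ((((3 * m - (m + a)).factorial : ℕ)) : ZMod (p ^ 2))⁻¹ = 1 :=
    natCast_mul_inv (not_dvd_factorial (by omega))
  have h1' := congrArg (Nat.cast : ℕ → ZMod (p ^ 2)) h1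
  push_cast at h1'
  set F1 : ZMod (p ^ 2) := ((((m + a).factorial : ℕ)) : ZMod (p ^ 2)) with hF1
  set F2 : ZMod (p ^ 2) := ((((3 * m - (m + a)).factorial : ℕ)) : ZMod (p ^ 2)) with hF2
  set F3 : ZMod (p ^ 2) := ((p - 1).factorial : ZMod (p ^ 2)) with hF3
  set F4 : ZMod (p ^ 2) := ((p + 1).ascFactorial (m - 1) : ZMod (p ^ 2)) with hF4
  have h5 : ((3 * m).choose (m + a) : ZMod (p ^ 2))
      = (p : ZMod (p ^ 2)) * (F3 * F4 * F1⁻¹ * F2⁻¹) := by
    linear_combination F1⁻¹ * F2⁻¹ * h1' - ((3 * m).choose (m + a) : ZMod (p ^ 2)) * F2 * F2⁻¹ * hu1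
      - ((3 * m).choose (m + a) : ZMod (p ^ 2)) * hu2
  rw [h5]
  apply P_mul_congr
  rw [hz, map_mul, map_mul, map_mul, red_inv (isUnit_iff_exists_inv.2 ⟨_, hu1⟩),
    red_inv (isUnit_iff_exists_inv.2 ⟨_, hu2⟩), hF1, hF2, hF3, hF4]
  simp only [map_natCast]
  have g3 : (((p - 1).factorial : ℕ) : ZMod p) = -1 := ZMod.wilsons_lemma p
  have g4 : (((p + 1).ascFactorial (m - 1) : ℕ) : ZMod p) = (((m - 1).factorial : ℕ) : ZMod p) := by
    rw [Nat.ascFactorial_eq_prod_range, ← Nat.one_ascFactorial, Nat.ascFactorial_eq_prod_range]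
    push_cast
    refine prod_congr rfl fun i _ => ?_
    rw [natCast_p]
    ring
  have g1 : (((m - a).factorial : ℕ) : ZMod p) * (((m + a).factorial : ℕ) : ZMod p) = (-1) ^ (m - a + 1) := by
    have := wilson_split (p := p) (m - a) (by omega)
    rw [show p - 1 - (m - a) = m + a by omega] at this
    exact this
  have g2 : ((a.factorial : ℕ) : ZMod p) * (((3 * m - (m + a)).factorial : ℕ) : ZMod p) = (-1) ^ (a + 1) := by
    have := wilson_split (p := p) a (by omega)
    rw [show p - 1 - a = 3 * m - (m + a) by omega] at this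
    exact this
  have g5 := factorial_sq (p := p) hm
  have g6 : ((m.choose a : ℕ) : ZMod p) * ((a.factorial : ℕ) : ZMod p) * (((m - a).factorial : ℕ) : ZMod p)
      = ((m.factorial : ℕ) : ZMod p) := by
    have := congrArg (Nat.cast : ℕ → ZMod p) (Nat.choose_mul_factorial_mul_factorial ha)
    push_cast at this
    exact this
  have g7 : ((m.factorial : ℕ) : ZMod p) = (m : ZMod p) * (((m - 1).factorial : ℕ) : ZMod p) := by
    rw [← Nat.cast_mul, Nat.mul_factorial_pred hm0.ne']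
  have g8 : 2 * (m : ZMod p) = -1 := by
    have hp0 := congrArg (Nat.cast : ℕ → ZMod p) hm
    rw [natCast_p] at hp0
    push_cast at hp0
    linear_combination -hp0
  have n1 : ((m.choose a : ℕ) : ZMod p) ≠ 0 := choose_ne_zero_K (by omega) ha
  have n2 : (((m + a).factorial : ℕ) : ZMod p) ≠ 0 := fun h => not_dvd_factorial (p := p) (show m + a < p by omega) ((ZMod.natCast_eq_zero_iff _ _).1 h)
  have n3 : (((3 * m - (m + a)).factorial : ℕ) : ZMod p) ≠ 0 := fun h => not_dvd_factorial (p := p) (show 3 * m - (m + a) < p by omega) ((ZMod.natCast_eq_zero_iff _ _).1 h)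
  have n4 : ((a.factorial : ℕ) : ZMod p) ≠ 0 := fun h => not_dvd_factorial (p := p) (show a < p by omega) ((ZMod.natCast_eq_zero_iff _ _).1 h)
  have n5 : (((m - a).factorial : ℕ) : ZMod p) ≠ 0 := fun h => not_dvd_factorial (p := p) (show m - a < p by omega) ((ZMod.natCast_eq_zero_iff _ _).1 h)
  rw [g3, g4]
  have s1 : ((-1 : ZMod p)) ^ (m - a + 1) * (-1) ^ (a + 1) * (-1) ^ (m + 1) = -1 := by
    rw [← pow_add, ← pow_add]
    apply Odd.neg_one_pow
    exact ⟨m + 1, by omega⟩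
  set c := ((m.choose a : ℕ) : ZMod p)
  set f1 := (((m + a).factorial : ℕ) : ZMod p)
  set f2 := (((3 * m - (m + a)).factorial : ℕ) : ZMod p)
  set f3 := (((m - 1).factorial : ℕ) : ZMod p)
  set fa := ((a.factorial : ℕ) : ZMod p)
  set fb := (((m - a).factorial : ℕ) : ZMod p)
  set fm := ((m.factorial : ℕ) : ZMod p)
  field_simp
  have key : fa * fb * (f3 * c - 2 * f1 * f2) = 0 := by
    have k1 : fa * fb * (f3 * c) = f3 * fm := by linear_combination f3 * g6
    have k2 : fa * fb * (2 * f1 * f2) = 2 * ((-1) ^ (m - a + 1) * (-1) ^ (a + 1)) := by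
      linear_combination 2 * (fa * f2) * g1 + 2 * (-1) ^ (m - a + 1) * g2
    have k3 : f3 * fm = -2 * fm ^ 2 := by
      linear_combination (2 * fm) * g7 + (f3 * fm) * g8
    have k4 : ((-1 : ZMod p)) ^ (m - a + 1) * (-1) ^ (a + 1) = -(-1) ^ (m + 1) := by
      have q : ((-1 : ZMod p)) ^ (m + 1) * (-1) ^ (m + 1) = 1 := by
        rw [← mul_pow]; simp
      linear_combination (-1 : ZMod p) ^ (m + 1) * s1 - ((-1 : ZMod p)) ^ (m - a + 1) * (-1) ^ (a + 1) * q
    rw [mul_sub, k1, k2, k3, g5, k4]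
    ring
  rcases mul_eq_zero.1 key with h | h
  · rcases mul_eq_zero.1 h with h | h
    · exact absurd h n4
    · exact absurd h n5
  · linear_combination -h

end Pool.Agent.Lib.H66SC
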