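import Mathlib
import Pool.Agent.Lib.H66SC.Binom

open Finset Polynomial

namespace Pool.Agent.Lib.H66SC

variable {p : ℕ} [hp : Fact p.Prime]

/-- The common first-order term. -/
noncomputable def G (p m a b : ℕ) : ZMod p :=
  2⁻¹ * (-HK p m + 4⁻¹ * (3 * HK p b + HK p a))

lemma choose_pred_mul {m a : ℕ} (hm : 0 < m) :
    (m : ZMod p) * ((m - 1).choose a : ℕ) = ((m - a : ℕ) : ZMod p) * (m.choose a : ℕ) := by
  have h := Nat.choose_mul_succ_eq (m - 1) a
  rw [show m - 1 + 1 = m by omega] at h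
  have := congrArg (Nat.cast : ℕ → ZMod p) h
  push_cast at this ⊢
  linear_combination this

lemma choose_pred_pred_mul {m a : ℕ} (ha : 0 < a) (hm : 0 < m) :
    (m : ZMod p) * ((m - 1).choose (a - 1) : ℕ) = ((a : ℕ) : ZMod p) * (m.choose a : ℕ) := by
  have h := Nat.add_one_mul_choose_eq (m - 1) (a - 1)
  rw [show m - 1 + 1 = m by omega, show a - 1 + 1 = a by omega] at h
  have := congrArg (Nat.cast : ℕ → ZMod p) h
  push_cast at this ⊢
  linear_combination this

lemma HK_pred {n : ℕ} (hn : 0 < n) : HK p (n - 1) = HK p n - (n : ZMod p)⁻¹ := by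
  have := HK_succ (p := p) (n - 1)
  rw [show n - 1 + 1 = n by omega] at this
  rw [this]; ring

/-- The combination of binomial coefficients for `p = 8 a + 1`. -/
lemma comb_one {a : ℕ} (ha : 0 < a) (hpa : p = 8 * a + 1) {y : ZMod (p ^ 2)}
    (hy : red p y = (((4 * a).choose a : ℕ) : ZMod p) * G p (4 * a) a (3 * a)
      + (((4 * a).choose a : ℕ) : ZMod p)⁻¹) :
    ((p : ZMod (p ^ 2)) - 1) * (3 * ((4 * a).choose a : ZMod (p ^ 2)) - ((12 * a).choose a : ZMod (p ^ 2))
      - ((12 * a).choose (3 * a) : ZMod (p ^ 2)) - ((12 * a).choose (5 * a) : ZMod (p ^ 2)))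
      = -2 * (((4 * a).choose a : ZMod (p ^ 2)) + (p : ZMod (p ^ 2)) * y) := by
  have hm : p = 2 * (4 * a) + 1 := by omega
  have c1 := choose_small (p := p) hm (k := a) (by omega)
  have c2 := choose_small (p := p) hm (k := 3 * a) (by omega)
  have r1 := red_sum_small (p := p) hm (k := a) (by omega)
  have r2 := red_sum_small (p := p) hm (k := 3 * a) (by omega)
  obtain ⟨z, hz⟩ := red_surj (p := p) (-2 * (((4 * a).choose a : ℕ) : ZMod p)⁻¹)
  have c3 := choose_middle (p := p) hm (by omega) (a := a) (by omega) hz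
  rw [show 3 * (4 * a) = 12 * a by ring] at c1 c2 c3
  rw [show 4 * a + a = 5 * a by ring] at c3
  set s1 := ∑ i ∈ range a, 1 * ((4 * a - 1 - i : ℕ) : ZMod (p ^ 2))⁻¹
  set s2 := ∑ i ∈ range (3 * a), 1 * ((4 * a - 1 - i : ℕ) : ZMod (p ^ 2))⁻¹
  have pas : ((4 * a - 1).choose a : ZMod (p ^ 2)) + ((4 * a - 1).choose (3 * a) : ZMod (p ^ 2))
      = ((4 * a).choose a : ZMod (p ^ 2)) := by
    rw [← Nat.cast_add]
    congr 1
    have e1 : (4 * a - 1).choose (3 * a) = (4 * a - 1).choose (a - 1) :=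
      Nat.choose_symm_of_eq_add (by omega)
    have e2 : (4 * a).choose a = (4 * a - 1).choose (a - 1) + (4 * a - 1).choose a := by
      have := Nat.choose_succ_succ (4 * a - 1) (a - 1)
      rw [show (4 * a - 1).succ = 4 * a by omega, show (a - 1).succ = a by omega] at this
      exact this
    rw [e1, e2]; ring
  have hPP := P_sq p
  have ha8 : (8 : ZMod p) * (a : ZMod p) = -1 := by
    have hp0 := congrArg (Nat.cast : ℕ → ZMod p) hpa
    rw [natCast_p] at hp0
    push_cast at hp0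
    linear_combination -hp0
  have h2 : (2 : ZMod p) ≠ 0 := two_ne_zero_K (by omega)
  have ha0 : (a : ZMod p) ≠ 0 := natCast_ne_zero_of_lt ha (by omega)
  have h3 : (3 : ZMod p) ≠ 0 := by
    have : ((3 : ℕ) : ZMod p) ≠ 0 := natCast_ne_zero_of_lt (by norm_num) (by omega)
    exact_mod_cast this
  have h4 : (4 : ZMod p) ≠ 0 := by
    have : (4 : ZMod p) = 2 * 2 := by norm_num
    rw [this]; exact mul_ne_zero h2 h2
  have hC : (((4 * a).choose a : ℕ) : ZMod p) ≠ 0 := choose_ne_zero_K (by omega) (by omega)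
  -- binomials below in `ZMod p`
  have q1 : (((4 * a - 1).choose a : ℕ) : ZMod p) * 4 = 3 * (((4 * a).choose a : ℕ) : ZMod p) := by
    have := choose_pred_mul (p := p) (m := 4 * a) (a := a) (by omega)
    rw [show 4 * a - a = 3 * a by omega] at this
    push_cast at this
    apply mul_left_cancel₀ ha0
    linear_combination this
  have q2 : (((4 * a - 1).choose (3 * a) : ℕ) : ZMod p) * 4 = (((4 * a).choose a : ℕ) : ZMod p) := by
    have := choose_pred_mul (p := p) (m := 4 * a) (a := 3 * a) (by omega)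
    rw [show 4 * a - 3 * a = a by omega, show (4 * a).choose (3 * a) = (4 * a).choose a from
      Nat.choose_symm_of_eq_add (by omega)] at this
    push_cast at this
    apply mul_left_cancel₀ ha0
    linear_combination this
  have key : (p : ZMod (p ^ 2)) * (-2 * y) = (p : ZMod (p ^ 2)) * (2 * ((4 * a).choose a : ZMod (p ^ 2))
      + (((4 * a - 1).choose a : ZMod (p ^ 2)) * s1 + ((4 * a - 1).choose (3 * a) : ZMod (p ^ 2)) * s2) + z) := by
    apply P_mul_congr
    simp only [map_mul, map_add, map_neg, map_ofNat, map_natCast]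
    rw [hy, r1, r2, hz, HK_pred (p := p) (n := 4 * a) (by omega)]
    rw [show 4 * a - 1 - a = 3 * a - 1 by omega, show 4 * a - 1 - 3 * a = a - 1 by omega,
      HK_pred (p := p) (n := 3 * a) (by omega), HK_pred (p := p) (n := a) (by omega)]
    have i4 : ((4 * a : ℕ) : ZMod p)⁻¹ = -2 := by
      apply inv_eq_of_mul_eq_one_right
      push_cast
      linear_combination -ha8
    have i3 : ((3 * a : ℕ) : ZMod p)⁻¹ = -8 * 3⁻¹ := by
      apply inv_eq_of_mul_eq_one_right
      push_cast
      field_simp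
      linear_combination -ha8
    have i1 : (a : ZMod p)⁻¹ = -8 := by
      apply inv_eq_of_mul_eq_one_right
      linear_combination -ha8
    rw [i4, i3, i1]
    have q1' : (((4 * a - 1).choose a : ℕ) : ZMod p) = 3 * (((4 * a).choose a : ℕ) : ZMod p) * 4⁻¹ := by
      rw [← q1]; field_simp
    have q2' : (((4 * a - 1).choose (3 * a) : ℕ) : ZMod p) = (((4 * a).choose a : ℕ) : ZMod p) * 4⁻¹ := by
      rw [← q2]; field_simp
    rw [q1', q2']
    unfold G
    field_simp
    ring
  rw [c1, c2, c3]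
  linear_combination -key + (1 - (p : ZMod (p ^ 2))) * pas
    - (((4 * a - 1).choose a : ZMod (p ^ 2)) * s1 + ((4 * a - 1).choose (3 * a) : ZMod (p ^ 2)) * s2 + z) * hPP

/-- The combination of binomial coefficients for `p = 8 a + 3`. -/
lemma comb_three {a : ℕ} (ha : 0 < a) (hpa : p = 8 * a + 3) {y : ZMod (p ^ 2)}
    (hy : red p y = (((4 * a + 1).choose a : ℕ) : ZMod p) * G p (4 * a + 1) a (3 * a + 1)
      + (((4 * a + 1).choose a : ℕ) : ZMod p)⁻¹) :
    ((p : ZMod (p ^ 2)) + 1) * (3 * ((4 * a + 1).choose a : ZMod (p ^ 2))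
      - ((12 * a + 3).choose (a - 1) : ZMod (p ^ 2))
      - ((12 * a + 3).choose (3 * a) : ZMod (p ^ 2)) - ((12 * a + 3).choose (5 * a + 1) : ZMod (p ^ 2)))
      = 2 * (((4 * a + 1).choose a : ZMod (p ^ 2)) + (p : ZMod (p ^ 2)) * y) := by
  have hm : p = 2 * (4 * a + 1) + 1 := by omega
  have c1 := choose_small (p := p) hm (k := a - 1) (by omega)
  have c2 := choose_small (p := p) hm (k := 3 * a) (by omega)
  have r1 := red_sum_small (p := p) hm (k := a - 1) (by omega)
  have r2 := red_sum_small (p := p) hm (k := 3 * a) (by omega)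
  obtain ⟨z, hz⟩ := red_surj (p := p) (-2 * (((4 * a + 1).choose a : ℕ) : ZMod p)⁻¹)
  have c3 := choose_middle (p := p) hm (by omega) (a := a) (by omega) hz
  rw [show 3 * (4 * a + 1) = 12 * a + 3 by ring] at c1 c2 c3
  rw [show 4 * a + 1 + a = 5 * a + 1 by ring] at c3
  set s1 := ∑ i ∈ range (a - 1), 1 * ((4 * a + 1 - 1 - i : ℕ) : ZMod (p ^ 2))⁻¹
  set s2 := ∑ i ∈ range (3 * a), 1 * ((4 * a + 1 - 1 - i : ℕ) : ZMod (p ^ 2))⁻¹
  have pas : ((4 * a + 1 - 1).choose (a - 1) : ZMod (p ^ 2)) + ((4 * a + 1 - 1).choose (3 * a) : ZMod (p ^ 2))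
      = ((4 * a + 1).choose a : ZMod (p ^ 2)) := by
    rw [← Nat.cast_add]
    congr 1
    have e1 : (4 * a + 1 - 1).choose (3 * a) = (4 * a + 1 - 1).choose a :=
      Nat.choose_symm_of_eq_add (by omega)
    have e2 : (4 * a + 1).choose a = (4 * a + 1 - 1).choose (a - 1) + (4 * a + 1 - 1).choose a := by
      have := Nat.choose_succ_succ (4 * a + 1 - 1) (a - 1)
      rw [show (4 * a + 1 - 1).succ = 4 * a + 1 by omega, show (a - 1).succ = a by omega] at this
      exact this
    rw [e1, e2]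
  have hPP := P_sq p
  have ha8 : (8 : ZMod p) * (a : ZMod p) = -3 := by
    have hp0 := congrArg (Nat.cast : ℕ → ZMod p) hpa
    rw [natCast_p] at hp0
    push_cast at hp0
    linear_combination -hp0
  have h2 : (2 : ZMod p) ≠ 0 := two_ne_zero_K (by omega)
  have ha0 : (a : ZMod p) ≠ 0 := natCast_ne_zero_of_lt ha (by omega)
  have h3 : (3 : ZMod p) ≠ 0 := by
    have : ((3 : ℕ) : ZMod p) ≠ 0 := natCast_ne_zero_of_lt (by norm_num) (by omega)
    exact_mod_cast this
  have h4 : (4 : ZMod p) ≠ 0 := by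
    have : (4 : ZMod p) = 2 * 2 := by norm_num
    rw [this]; exact mul_ne_zero h2 h2
  have hC : (((4 * a + 1).choose a : ℕ) : ZMod p) ≠ 0 := choose_ne_zero_K (by omega) (by omega)
  -- binomials below in `ZMod p`
  have q1 : (((4 * a + 1 - 1).choose (a - 1) : ℕ) : ZMod p) * 4 = 3 * (((4 * a + 1).choose a : ℕ) : ZMod p) := by
    have := choose_pred_pred_mul (p := p) (m := 4 * a + 1) (a := a) (by omega) (by omega)
    push_cast at this
    simp only [Nat.add_sub_cancel]
    linear_combination (-8) * this + (4 * (((4 * a).choose (a - 1) : ℕ) : ZMod p)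
      - (((4 * a + 1).choose a : ℕ) : ZMod p)) * ha8
  have q2 : (((4 * a + 1 - 1).choose (3 * a) : ℕ) : ZMod p) * 4 = (((4 * a + 1).choose a : ℕ) : ZMod p) := by
    have := choose_pred_mul (p := p) (m := 4 * a + 1) (a := 3 * a) (by omega)
    rw [show 4 * a + 1 - 3 * a = a + 1 by omega, show (4 * a + 1).choose (3 * a) = (4 * a + 1).choose (a + 1) from
      Nat.choose_symm_of_eq_add (by omega)] at this
    have e := congrArg (Nat.cast : ℕ → ZMod p) (Nat.choose_succ_right_eq (4 * a + 1) a)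
    rw [show 4 * a + 1 - a = 3 * a + 1 by omega] at e
    push_cast at this e
    simp only [Nat.add_sub_cancel]
    linear_combination (-8) * this + (4 * (((4 * a).choose (3 * a) : ℕ) : ZMod p)
      - 3 * (((4 * a + 1).choose a : ℕ) : ZMod p)) * ha8 - 8 * e
  have key : (p : ZMod (p ^ 2)) * (2 * y) = (p : ZMod (p ^ 2)) * (2 * ((4 * a + 1).choose a : ZMod (p ^ 2))
      - (((4 * a + 1 - 1).choose (a - 1) : ZMod (p ^ 2)) * s1 + ((4 * a + 1 - 1).choose (3 * a) : ZMod (p ^ 2)) * s2) - z) := by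
    apply P_mul_congr
    simp only [map_mul, map_add, map_sub, map_ofNat, map_natCast]
    rw [hy, r1, r2, hz, HK_pred (p := p) (n := 4 * a + 1) (by omega)]
    rw [show 4 * a + 1 - 1 - (a - 1) = 3 * a + 1 by omega, show 4 * a + 1 - 1 - 3 * a = a by omega]
    have i4 : ((4 * a + 1 : ℕ) : ZMod p)⁻¹ = -2 := by
      apply inv_eq_of_mul_eq_one_right
      push_cast
      linear_combination -ha8
    rw [i4]
    have q1' : (((4 * a + 1 - 1).choose (a - 1) : ℕ) : ZMod p) = 3 * (((4 * a + 1).choose a : ℕ) : ZMod p) * 4⁻¹ := by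
      rw [← q1]; field_simp
    have q2' : (((4 * a + 1 - 1).choose (3 * a) : ℕ) : ZMod p) = (((4 * a + 1).choose a : ℕ) : ZMod p) * 4⁻¹ := by
      rw [← q2]; field_simp
    rw [q1', q2']
    unfold G
    field_simp
    ring
  rw [c1, c2, c3]
  linear_combination -key - (1 + (p : ZMod (p ^ 2))) * pas
    - (((4 * a + 1 - 1).choose (a - 1) : ZMod (p ^ 2)) * s1 + ((4 * a + 1 - 1).choose (3 * a) : ZMod (p ^ 2)) * s2 + z) * hPP

end Pool.Agent.Lib.H66SC
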