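import Mathlib
import Pool.Agent.Lib.H66SC.Comb

open Finset Polynomial

namespace Pool.Agent.Lib.H66SC

variable {p : ℕ} [hp : Fact p.Prime]

/-- The quadratic character of `ZMod p`. -/
noncomputable abbrev chi (p : ℕ) [Fact p.Prime] : MulChar (ZMod p) ℤ := quadraticChar (ZMod p)

lemma ringChar_ne_two (h2 : p ≠ 2) : ringChar (ZMod p) ≠ 2 := by
  rw [ZMod.ringChar_zmod_n]; exact h2

lemma chi_pow_four {x : ZMod p} (hx : x ≠ 0) : chi p (x ^ 4) = 1 := by
  rw [show x ^ 4 = (x ^ 2) ^ 2 by ring]
  exact quadraticChar_sq_one' (pow_ne_zero 2 hx)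

lemma chi_sq {x : ZMod p} (hx : x ≠ 0) : chi p x * chi p x = 1 := by
  have := quadraticChar_sq_one hx
  rw [← sq]; exact this

lemma chi_inv (x : ZMod p) : chi p (x⁻¹) = chi p x := by
  by_cases hx : x = 0
  · rw [hx, inv_zero]
  · have h1 : chi p (x⁻¹) * chi p x = 1 := by
      rw [← map_mul, inv_mul_cancel₀ hx, map_one]
    have h2 := chi_sq hx
    calc chi p (x⁻¹) = chi p (x⁻¹) * (chi p x * chi p x) := by rw [h2, mul_one]
      _ = (chi p (x⁻¹) * chi p x) * chi p x := by ring
      _ = chi p x := by rw [h1, one_mul]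

/-- The quadratic character at an element of `ZMod (p ^ 2)`, through its powers. -/
lemma sign_formula (h2 : p ≠ 2) {m : ℕ} (hm : p = 2 * m + 1) (hm2 : 2 ≤ m) (t : ZMod (p ^ 2)) :
    3 * t ^ m - t ^ (3 * m) = 2 * ((chi p (red p t) : ℤ) : ZMod (p ^ 2)) := by
  have hPP := P_sq p
  by_cases h0 : red p t = 0
  · obtain ⟨z, hz⟩ := red_ker h0
    rw [h0, MulChar.map_zero, Int.cast_zero, mul_zero]
    have h1 : t ^ m = 0 := by
      rw [hz, mul_pow, show m = (m - 2) + 2 by omega, pow_add (p : ZMod (p ^ 2)), hPP, mul_zero, zero_mul]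
    rw [mul_comm 3 m, pow_mul, h1]
    simp
  · have h1 : red p (t ^ m) = red p ((chi p (red p t) : ℤ) : ZMod (p ^ 2)) := by
      rw [map_pow, map_intCast]
      have := quadraticChar_eq_pow_of_char_ne_two' (ringChar_ne_two h2) (red p t)
      rw [ZMod.card, show p / 2 = m by omega] at this
      exact this.symm
    obtain ⟨z, hz⟩ := red_congr h1
    rw [mul_comm 3 m, pow_mul]
    refine sign_cubic hPP ?_ hz
    have := congrArg (Int.cast : ℤ → ZMod (p ^ 2)) (chi_sq h0)
    push_cast at this
    linear_combination this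

/-- Sum over `ZMod p` through powers of a generator. -/
lemma sum_generator {M : Type*} [AddCommMonoid M] (g : (ZMod p)ˣ) (hg : ∀ x, x ∈ Subgroup.zpowers g)
    (f : ZMod p → M) : ∑ x : ZMod p, f x = f 0 + ∑ e ∈ range (p - 1), f ((g : ZMod p) ^ e) := by
  have hord : orderOf g = p - 1 := by
    rw [orderOf_eq_card_of_forall_mem_zpowers hg, Nat.card_eq_fintype_card, ZMod.card_units]
  have h1 : ∑ e ∈ range (p - 1), f ((g : ZMod p) ^ e) = ∑ x ∈ univ.erase (0 : ZMod p), f x := by
    refine sum_bij (fun e _ => (g : ZMod p) ^ e) ?_ ?_ ?_ ?_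
    · intro e _
      rw [mem_erase]
      exact ⟨pow_ne_zero _ g.ne_zero, mem_univ _⟩
    · intro a ha b hb hab
      rw [mem_range, ← hord] at ha hb
      have : g ^ a = g ^ b := Units.ext (by push_cast; exact hab)
      exact pow_injOn_Iio_orderOf ha hb this
    · intro x hx
      rw [mem_erase] at hx
      have := IsCyclic.image_range_orderOf hg
      have hx' : Units.mk0 x hx.1 ∈ image (fun i => g ^ i) (range (orderOf g)) := by
        rw [this]; exact mem_univ _
      rw [mem_image] at hx'
      obtain ⟨e, he, hxe⟩ := hx'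
      refine ⟨e, by rw [← hord]; exact he, ?_⟩
      have := congrArg Units.val hxe
      push_cast at this
      exact this
    · intro e _
      rfl
  rw [h1, ← sum_erase_add _ _ (mem_univ (0 : ZMod p)), add_comm]

/-- The character value of a generator. -/
lemma chi_generator (h2 : p ≠ 2) (g : (ZMod p)ˣ) (hg : ∀ x, x ∈ Subgroup.zpowers g) :
    chi p (g : ZMod p) = -1 := by
  rcases quadraticChar_dichotomy (a := (g : ZMod p)) g.ne_zero with h | h
  · exfalso
    obtain ⟨a, ha⟩ := quadraticChar_exists_neg_one' (ringChar_ne_two (p := p) h2)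
    have := IsCyclic.image_range_orderOf hg
    have hx' : a ∈ image (fun i => g ^ i) (range (orderOf g)) := by
      rw [this]; exact mem_univ _
    rw [mem_image] at hx'
    obtain ⟨e, _, hxe⟩ := hx'
    rw [← hxe] at ha
    push_cast at ha
    rw [map_pow, h, one_pow] at ha
    norm_num at ha
  · exact h

/-- Sums of four-periodic functions. -/
lemma sum_periodic (f : ℕ → ℤ) (c : ℕ) (hf : ∀ e, f (e + c) = f e) (n : ℕ) :
    ∑ e ∈ range (c * n), f e = n * ∑ e ∈ range c, f e := by
  induction n with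
  | zero => simp
  | succ n ih =>
    rw [Nat.mul_succ, sum_range_add, ih]
    have h : ∀ k, ∀ e, f (c * k + e) = f e := by
      intro k
      induction k with
      | zero => intro e; simp
      | succ k ihk =>
        intro e
        rw [show c * (k + 1) + e = (c * k + e) + c by ring, hf, ihk]
    rw [sum_congr rfl (fun e _ => h n e)]
    push_cast
    ring

/-- Roots of unity sums in a ring. -/
lemma root_sum {R : Type*} [CommRing R] {z : R} {n : ℕ} (hz : z ^ n = 1)
    (hu : ∀ c : ℕ, ¬ n ∣ c → IsUnit (z ^ c - 1)) (c : ℕ) :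
    ∑ e ∈ range n, (z ^ c) ^ e = if n ∣ c then (n : R) else 0 := by
  split_ifs with h
  · obtain ⟨d, rfl⟩ := h
    rw [pow_mul, hz]
    simp
  · obtain ⟨v, hv⟩ := isUnit_iff_exists_inv.1 (hu c h)
    refine geom_root_zero ?_ hv
    rw [← pow_mul, mul_comm, pow_mul, hz, one_pow]

end Pool.Agent.Lib.H66SC
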