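import Mathlib
import Pool.Agent.Lib.H66SC.Char

open Finset Polynomial

namespace Pool.Agent.Lib.H66SC

variable {p : ℕ} [hp : Fact p.Prime]

/-- The Jacobsthal-type sum. -/
noncomputable def Phi (p : ℕ) [Fact p.Prime] (b : ZMod p) : ℤ :=
  ∑ z : ZMod p, chi p z * chi p (z ^ 4 + b)

lemma Phi_mul (b : ZMod p) {t : ZMod p} (ht : t ≠ 0) :
    Phi p (b * t ^ 4) = chi p t * Phi p b := by
  unfold Phi
  rw [mul_sum, ← Equiv.sum_comp (Equiv.mulLeft₀ t ht)]
  refine sum_congr rfl fun z _ => ?_
  simp only [Equiv.mulLeft₀_apply]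
  rw [show (t * z) ^ 4 + b * t ^ 4 = t ^ 4 * (z ^ 4 + b) by ring, map_mul, map_mul, chi_pow_four ht]
  ring

lemma Phi_inv {b : ZMod p} (hb : b ≠ 0) : Phi p b⁻¹ = chi p b * Phi p b := by
  unfold Phi
  rw [mul_sum, ← Equiv.sum_comp (Equiv.inv (ZMod p))]
  refine sum_congr rfl fun z _ => ?_
  simp only [Equiv.inv_apply]
  by_cases hz : z = 0
  · rw [hz, inv_zero, MulChar.map_zero]; ring
  · have h4 : z ^ 4 ≠ 0 := pow_ne_zero 4 hz
    rw [show z⁻¹ ^ 4 + b⁻¹ = (z ^ 4)⁻¹ * (b⁻¹ * (z ^ 4 + b)) by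
      field_simp; ring, map_mul, map_mul, chi_inv, chi_inv, chi_inv, chi_pow_four hz]
    ring

lemma Phi_zero (h2 : p ≠ 2) : Phi p 0 = 0 := by
  unfold Phi
  rw [← quadraticChar_sum_zero (ringChar_ne_two (p := p) h2)]
  refine sum_congr rfl fun z _ => ?_
  by_cases hz : z = 0
  · rw [hz, MulChar.map_zero]; ring
  · rw [add_zero, chi_pow_four hz, mul_one]

/-- Correlation of the quadratic character. -/
lemma chi_corr (h2 : p ≠ 2) (α β : ZMod p) :
    ∑ b : ZMod p, chi p (α + b) * chi p (β + b) = (if α = β then (p : ℤ) else 0) - 1 := by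
  split_ifs with h
  · subst h
    have h1 : ∑ b : ZMod p, chi p (α + b) * chi p (α + b) = ∑ b : ZMod p, chi p b * chi p b :=
      Equiv.sum_comp (Equiv.addLeft α) (fun b => chi p b * chi p b)
    rw [h1]
    have h3 : ∀ b : ZMod p, chi p b * chi p b = 1 - (if b = 0 then 1 else 0) := by
      intro b
      split_ifs with hb
      · rw [hb, MulChar.map_zero]; ring
      · rw [chi_sq hb]; ring
    simp only [h3]
    rw [sum_sub_distrib, sum_ite_eq' univ (0 : ZMod p)]
    simp [ZMod.card]
  · have hd : β - α ≠ 0 := sub_ne_zero.2 (Ne.symm h)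
    -- `α + b = -d s`, `β + b = d (1 - s)`
    have hJ : jacobiSum (chi p) (chi p) = - chi p (-1) := by
      have h1 := jacobiSum_nontrivial_inv (F := ZMod p) (R := ℤ) (χ := chi p)
        (quadraticChar_ne_one (ringChar_ne_two h2))
      have h3 : (chi p)⁻¹ = chi p := (quadraticChar_isQuadratic (ZMod p)).inv
      rw [h3] at h1
      exact h1
    have e : ∑ b : ZMod p, chi p (α + b) * chi p (β + b)
        = ∑ s : ZMod p, chi p (-1) * (chi p s * chi p (1 - s)) := by
      rw [← Equiv.sum_comp (Equiv.subRight α)]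
      rw [← Equiv.sum_comp (Equiv.mulLeft₀ (-(β - α)) (neg_ne_zero.2 hd))]
      refine sum_congr rfl fun s _ => ?_
      simp only [Equiv.subRight_apply, Equiv.mulLeft₀_apply]
      rw [show α + (-(β - α) * s - α) = (-1) * ((β - α) * s) by ring,
        show β + (-(β - α) * s - α) = (β - α) * (1 - s) by ring, map_mul, map_mul, map_mul]
      have := chi_sq hd
      linear_combination (chi p (-1) * chi p s * chi p (1 - s)) * this
    rw [e, ← mul_sum]
    have hJ' : ∑ s : ZMod p, chi p s * chi p (1 - s) = - chi p (-1) := hJ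
    rw [hJ']
    have := chi_sq (p := p) (x := -1) (neg_ne_zero.2 one_ne_zero)
    linear_combination -this

lemma sum_Phi_sq (h2 : p ≠ 2) :
    ∑ b : ZMod p, Phi p b ^ 2
      = p * ∑ z : ZMod p, ∑ w : ZMod p, (if z ^ 4 = w ^ 4 then chi p z * chi p w else 0) := by
  have h1 : ∀ b : ZMod p, Phi p b ^ 2 = ∑ z : ZMod p, ∑ w : ZMod p,
      (chi p z * chi p w) * (chi p (z ^ 4 + b) * chi p (w ^ 4 + b)) := by
    intro b
    unfold Phi
    rw [sq, sum_mul_sum]
    refine sum_congr rfl fun z _ => sum_congr rfl fun w _ => ?_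
    ring
  simp only [h1]
  rw [sum_comm]
  have h3 : ∀ z : ZMod p, ∑ b : ZMod p, ∑ w : ZMod p,
      (chi p z * chi p w) * (chi p (z ^ 4 + b) * chi p (w ^ 4 + b))
      = ∑ w : ZMod p, ((p : ℤ) * (if z ^ 4 = w ^ 4 then chi p z * chi p w else 0)
          - chi p z * chi p w) := by
    intro z
    rw [sum_comm]
    refine sum_congr rfl fun w _ => ?_
    rw [← mul_sum, chi_corr h2]
    split_ifs <;> ring
  simp only [h3, sum_sub_distrib]
  rw [← sum_mul_sum, quadraticChar_sum_zero (ringChar_ne_two (p := p) h2), zero_mul, sub_zero, mul_sum]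
  refine sum_congr rfl fun z _ => ?_
  rw [mul_sum]

/-- A square root of `-1` that is itself a square. -/
lemma exists_i {l : ℕ} (hl : 0 < l) (hpl : p = 8 * l + 1) (g : (ZMod p)ˣ)
    (hg : ∀ x, x ∈ Subgroup.zpowers g) :
    ((g : ZMod p) ^ (2 * l)) ^ 2 = -1 := by
  have hord : orderOf g = p - 1 := by
    rw [orderOf_eq_card_of_forall_mem_zpowers hg, Nat.card_eq_fintype_card, ZMod.card_units]
  have h4 : ((g : ZMod p) ^ (2 * l)) ^ 2 * ((g : ZMod p) ^ (2 * l)) ^ 2 = 1 := by
    have := pow_orderOf_eq_one g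
    rw [hord] at this
    have := congrArg Units.val this
    push_cast at this
    rw [← this, show p - 1 = 2 * l * 2 + 2 * l * 2 by omega, pow_add, pow_mul _ (2 * l) 2]
  rcases mul_self_eq_one_iff.1 h4 with h | h
  · exfalso
    have h5 : g ^ (4 * l) = 1 := by
      apply Units.ext
      push_cast
      rw [← h, ← pow_mul]
      congr 1
      ring
    have := orderOf_dvd_of_pow_eq_one h5
    rw [hord] at this
    have := Nat.le_of_dvd (by omega) this
    omega
  · exact h

/-- For `p = 8 l + 1`, the inner sum of `sum_Phi_sq`. -/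
lemma fourth_sum {l : ℕ} (hl : 0 < l) (hpl : p = 8 * l + 1) (g : (ZMod p)ˣ)
    (hg : ∀ x, x ∈ Subgroup.zpowers g) :
    ∑ z : ZMod p, ∑ w : ZMod p, (if z ^ 4 = w ^ 4 then chi p z * chi p w else 0)
      = 4 * ((p : ℤ) - 1) := by
  have h2 : p ≠ 2 := by omega
  have hi2 := exists_i hl hpl g hg
  have hchi : chi p ((g : ZMod p) ^ (2 * l)) = 1 := by
    rw [map_pow, chi_generator h2 g hg, pow_mul]
    simp
  set i : ZMod p := (g : ZMod p) ^ (2 * l) with hi
  have hi0 : i ≠ 0 := pow_ne_zero _ g.ne_zero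
  have hneg : chi p (-1) = 1 := by
    rw [← hi2, map_pow, hchi, one_pow]
  have htwo : (2 : ZMod p) ≠ 0 := two_ne_zero_K h2
  have hi1 : i ≠ 1 := by
    intro h; rw [h] at hi2
    apply htwo
    linear_combination hi2
  have hi1' : i ≠ -1 := by
    intro h; rw [h] at hi2
    apply htwo
    linear_combination hi2
  rw [sum_comm]
  have inner : ∀ w : ZMod p, ∑ z : ZMod p, (if z ^ 4 = w ^ 4 then chi p z * chi p w else 0)
      = 4 - (if w = 0 then 4 else 0) := by
    intro w
    split_ifs with hw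
    · rw [hw]
      apply sum_eq_zero
      intro z _
      rw [MulChar.map_zero, mul_zero]
      simp
    · rw [← sum_filter]
      have hs : (univ.filter (fun z : ZMod p => z ^ 4 = w ^ 4)) = {w, -w, i * w, -(i * w)} := by
        ext z
        simp only [mem_filter, mem_univ, true_and, mem_insert, mem_singleton]
        constructor
        · intro h
          have h' : (z ^ 2 - w ^ 2) * (z ^ 2 - (i * w) ^ 2) = 0 := by
            rw [mul_pow, hi2]
            linear_combination h
          rcases mul_eq_zero.1 h' with h | h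
          · rcases sq_eq_sq_iff_eq_or_eq_neg.1 (sub_eq_zero.1 h) with h | h
            · exact Or.inl h
            · exact Or.inr (Or.inl h)
          · rcases sq_eq_sq_iff_eq_or_eq_neg.1 (sub_eq_zero.1 h) with h | h
            · exact Or.inr (Or.inr (Or.inl h))
            · exact Or.inr (Or.inr (Or.inr h))
        · have hi4 : i ^ 4 = 1 := by
            rw [show i ^ 4 = (i ^ 2) ^ 2 by ring, hi2]; ring
          rintro (h | h | h | h)
          · rw [h]
          · rw [h]; ring
          · rw [h, mul_pow, hi4, one_mul]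
          · rw [h, neg_pow, mul_pow, hi4]; ring
      have d1 : w ≠ -w := by
        intro h
        apply hw
        apply (mul_eq_zero.1 (show 2 * w = 0 by linear_combination h)).resolve_left htwo
      have d2 : w ≠ i * w := by
        intro h
        have : (1 - i) * w = 0 := by linear_combination h
        rcases mul_eq_zero.1 this with h' | h'
        · exact hi1 (by linear_combination -h')
        · exact hw h'
      have d3 : w ≠ -(i * w) := by
        intro h
        have : (1 + i) * w = 0 := by linear_combination h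
        rcases mul_eq_zero.1 this with h' | h'
        · exact hi1' (by linear_combination h')
        · exact hw h'
      have d4 : -w ≠ i * w := fun h => d3 (by rw [← h, neg_neg])
      have d5 : -w ≠ -(i * w) := fun h => d2 (neg_injective h)
      have d6 : i * w ≠ -(i * w) := by
        intro h
        have : 2 * (i * w) = 0 := by linear_combination h
        rcases mul_eq_zero.1 this with h' | h'
        · exact htwo h'
        · rcases mul_eq_zero.1 h' with h' | h'
          · exact hi0 h'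
          · exact hw h'
      rw [hs, sum_insert (by simp [d1, d2, d3]), sum_insert (by simp [d4, d5]),
        sum_insert (by simp [d6]), sum_singleton]
      have hww := chi_sq hw
      rw [show -w = (-1) * w by ring, show -(i * w) = (-1) * (i * w) by ring]
      simp only [map_mul, hneg, hchi, one_mul]
      rw [hww]
      ring
  simp only [inner]
  rw [sum_sub_distrib, sum_ite_eq' univ (0 : ZMod p)]
  simp [ZMod.card]
  ring

/-- The four sums, for `p = 8 l + 1`. -/
lemma four_sums_one {l : ℕ} (hl : 0 < l) (hpl : p = 8 * l + 1) (g : (ZMod p)ˣ)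
    (hg : ∀ x, x ∈ Subgroup.zpowers g) :
    Phi p 1 ^ 2 + 2 * Phi p g ^ 2 = 16 * p := by
  have h2 : p ≠ 2 := by omega
  have h1 := sum_Phi_sq (p := p) h2
  rw [fourth_sum hl hpl g hg, sum_generator g hg, Phi_zero h2] at h1
  have hchi := chi_generator (p := p) h2 g hg
  have hg0 : (g : ZMod p) ≠ 0 := g.ne_zero
  have step : ∀ e, Phi p ((g : ZMod p) ^ (e + 4)) = - Phi p ((g : ZMod p) ^ e) := by
    intro e
    rw [pow_add, Phi_mul _ hg0, hchi]
    ring
  have hper := sum_periodic (fun e => Phi p ((g : ZMod p) ^ e) ^ 2) 4 (by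
    intro e
    simp only [step]
    ring) (2 * l)
  rw [show 4 * (2 * l) = p - 1 by omega] at hper
  rw [hper] at h1
  simp only [sum_range_succ, sum_range_zero, pow_zero, pow_one, zero_add] at h1
  -- the third sum vanishes
  have e2 : Phi p ((g : ZMod p) ^ 2) = 0 := by
    have a1 : Phi p ((g : ZMod p) ^ 2)⁻¹ = Phi p ((g : ZMod p) ^ 2) := by
      rw [Phi_inv (pow_ne_zero 2 hg0), map_pow, hchi]
      ring
    have a2 : Phi p ((g : ZMod p) ^ 2) = - Phi p ((g : ZMod p) ^ 2)⁻¹ := by
      have : (g : ZMod p) ^ 2 = ((g : ZMod p) ^ 2)⁻¹ * (g : ZMod p) ^ 4 := by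
        field_simp
      rw [this, Phi_mul _ hg0, hchi, ← this]
      ring
    rw [a1] at a2
    linarith
  have e3 : Phi p ((g : ZMod p) ^ 3) = Phi p (g : ZMod p) := by
    have a1 : Phi p (g : ZMod p)⁻¹ = - Phi p (g : ZMod p) := by
      rw [Phi_inv hg0, hchi]
      ring
    have : (g : ZMod p) ^ 3 = (g : ZMod p)⁻¹ * (g : ZMod p) ^ 4 := by
      field_simp
    rw [this, Phi_mul _ hg0, hchi, a1]
    ring
  rw [e2, e3] at h1
  have hpz : (p : ℤ) = 8 * l + 1 := by exact_mod_cast hpl
  have hlz : (l : ℤ) ≠ 0 := by exact_mod_cast hl.ne'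
  apply mul_left_cancel₀ hlz
  push_cast at h1
  have h3 : (2 * (l : ℤ)) * (Phi p 1 ^ 2 + 2 * Phi p (g : ZMod p) ^ 2) = 32 * l * p := by
    rw [hpz] at h1 ⊢
    linear_combination h1
  apply mul_left_cancel₀ (two_ne_zero : (2 : ℤ) ≠ 0)
  linear_combination h3

/-- Folding of a sum over `range (2 l)` symmetric about `l`. -/
lemma sum_fold (f : ℕ → ℤ) (l : ℕ) (hl : 0 < l) (hf : ∀ e, 0 < e → e < l → f (2 * l - e) = f e) :
    ∑ e ∈ range (2 * l), f e = f 0 + f l + 2 * ∑ e ∈ range (l - 1), f (e + 1) := by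
  rw [show 2 * l = l + l by ring, sum_range_add]
  have h1 : ∑ e ∈ range l, f e = ∑ e ∈ range (l - 1), f (e + 1) + f 0 := by
    rw [← sum_range_succ', show l - 1 + 1 = l by omega]
  have h3 : ∑ e ∈ range l, f (l + e) = ∑ e ∈ range (l - 1), f (l + (e + 1)) + f (l + 0) := by
    rw [← sum_range_succ' (fun e => f (l + e)), show l - 1 + 1 = l by omega]
  have h4 : ∑ e ∈ range (l - 1), f (l + (e + 1)) = ∑ e ∈ range (l - 1), f (e + 1) := by
    rw [← sum_range_reflect]
    refine sum_congr rfl fun e he => ?_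
    rw [mem_range] at he
    rw [← hf (e + 1) (by omega) (by omega)]
    congr 1
    omega
  rw [h1, h3, h4, add_zero]
  ring

lemma odd_sum_parity (f : ℕ → ℤ) (n : ℕ) (hf : ∀ e < n, f e = 1 ∨ f e = -1) :
    ∃ k : ℤ, ∑ e ∈ range n, f e = n + 2 * k := by
  induction n with
  | zero => exact ⟨0, by simp⟩
  | succ n ih =>
    obtain ⟨k, hk⟩ := ih (fun e he => hf e (by omega))
    rw [sum_range_succ, hk]
    rcases hf n (by omega) with h | h
    · exact ⟨k, by rw [h]; push_cast; ring⟩
    · exact ⟨k - 1, by rw [h]; push_cast; ring⟩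

/-- For `p = 8 l + 1`, the sum `Phi p 1` is `4 X` with `X ≡ 2 l - 1` modulo `4`. -/
lemma Phi_one_parity {l : ℕ} (hl : 0 < l) (hpl : p = 8 * l + 1) (g : (ZMod p)ˣ)
    (hg : ∀ x, x ∈ Subgroup.zpowers g) :
    ∃ X k : ℤ, Phi p 1 = 4 * X ∧ X = 2 * l - 1 + 4 * k := by
  have h2 : p ≠ 2 := by omega
  have hchi := chi_generator (p := p) h2 g hg
  have hg0 : (g : ZMod p) ≠ 0 := g.ne_zero
  have hord : orderOf g = p - 1 := by
    rw [orderOf_eq_card_of_forall_mem_zpowers hg, Nat.card_eq_fintype_card, ZMod.card_units]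
  set f : ℕ → ℤ := fun e => chi p ((g : ZMod p) ^ e) * chi p (((g : ZMod p) ^ e) ^ 4 + 1) with hf
  have hi2 := exists_i hl hpl g hg
  have h1 : Phi p 1 = ∑ e ∈ range (2 * l * 4), f e := by
    unfold Phi
    rw [sum_generator g hg, MulChar.map_zero, zero_mul, zero_add, show 2 * l * 4 = p - 1 by omega]
  have hper : ∀ e, f (e + 2 * l) = f e := by
    intro e
    simp only [hf]
    have a1 : chi p ((g : ZMod p) ^ (e + 2 * l)) = chi p ((g : ZMod p) ^ e) := by
      rw [pow_add, map_mul, map_pow _ _ (2 * l), hchi, pow_mul]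
      simp
    have a2 : ((g : ZMod p) ^ (e + 2 * l)) ^ 4 = ((g : ZMod p) ^ e) ^ 4 := by
      rw [pow_add, mul_pow, show ((g : ZMod p) ^ (2 * l)) ^ 4 = (((g : ZMod p) ^ (2 * l)) ^ 2) ^ 2 by ring,
        hi2]
      ring
    rw [a1, a2]
  rw [sum_periodic f (2 * l) hper] at h1
  have hsym : ∀ e, 0 < e → e < l → f (2 * l - e) = f e := by
    intro e he hel
    rw [← hper]
    simp only [hf]
    have b1 : (g : ZMod p) ^ (2 * l - e + 2 * l) = ((g : ZMod p) ^ (2 * l)) ^ 2 * ((g : ZMod p) ^ e)⁻¹ := by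
      rw [← pow_mul]
      field_simp
      rw [← pow_add]
      congr 1
      omega
    rw [b1, hi2]
    have hz : (g : ZMod p) ^ e ≠ 0 := pow_ne_zero _ hg0
    have hz4 := chi_pow_four hz
    have hneg : chi p (-1) = 1 := by
      rw [← hi2, map_pow, map_pow, hchi, pow_mul]
      simp
    rw [map_mul, hneg, chi_inv, one_mul,
      show (-1 * ((g : ZMod p) ^ e)⁻¹) ^ 4 + 1 = (((g : ZMod p) ^ e) ^ 4)⁻¹ * (((g : ZMod p) ^ e) ^ 4 + 1) by
        field_simp; ring, map_mul, chi_inv, hz4, one_mul]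
  have hfold := sum_fold f l hl hsym
  have f0 : f 0 = 1 := by
    simp only [hf, pow_zero, one_pow, map_one, one_mul]
    rw [one_add_one_eq_two, quadraticChar_one_iff_isSquare (two_ne_zero_K h2),
      FiniteField.isSquare_two_iff, ZMod.card]
    omega
  have fl : f l = 0 := by
    simp only [hf]
    rw [← pow_mul, show l * 4 = 2 * l * 2 by ring, pow_mul, hi2]
    simp
  have hodd : ∀ e < l - 1, f (e + 1) = 1 ∨ f (e + 1) = -1 := by
    intro e he
    have c1 := quadraticChar_dichotomy (a := (g : ZMod p) ^ (e + 1)) (pow_ne_zero _ hg0)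
    have c2 := quadraticChar_dichotomy (a := ((g : ZMod p) ^ (e + 1)) ^ 4 + 1) (by
      intro h
      have h' : ((g : ZMod p) ^ (e + 1)) ^ 4 = -1 := by linear_combination h
      have h'' : g ^ ((e + 1) * 8) = 1 := by
        apply Units.ext
        push_cast
        rw [show (e + 1) * 8 = (e + 1) * 4 * 2 by ring, pow_mul, pow_mul, h']
        ring
      have := orderOf_dvd_of_pow_eq_one h''
      rw [hord] at this
      have := Nat.le_of_dvd (by omega) this
      omega)
    simp only [hf]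
    rcases c1 with c1 | c1 <;> rcases c2 with c2 | c2 <;> rw [c1, c2] <;> simp
  obtain ⟨k, hk⟩ := odd_sum_parity (fun e => f (e + 1)) (l - 1) hodd
  refine ⟨∑ e ∈ range (2 * l), f e, k, ?_, ?_⟩
  · rw [h1]; norm_num
  · rw [hfold, f0, fl, hk]
    push_cast [Nat.cast_sub (show 1 ≤ l by omega)]
    ring

omit hp in
/-- The power sums for `p = 8 l + 1`. -/
lemma power_sum_one {n : ℕ} {γ : ZMod (p ^ 2)} (h1 : γ ^ n = 1)
    (hu : ∀ c : ℕ, ¬ n ∣ c → IsUnit (γ ^ c - 1)) (M : ℕ) :
    ∑ e ∈ range n, (γ ^ (5 * e) + γ ^ e) ^ M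
      = (n : ZMod (p ^ 2)) * ∑ k ∈ (range (M + 1)).filter (fun k => n ∣ M + 4 * k),
          (M.choose k : ZMod (p ^ 2)) := by
  have h3 : ∀ e, (γ ^ (5 * e) + γ ^ e) ^ M
      = ∑ k ∈ range (M + 1), (M.choose k : ZMod (p ^ 2)) * (γ ^ (M + 4 * k)) ^ e := by
    intro e
    rw [add_pow]
    refine sum_congr rfl fun k hk => ?_
    have hk' : k ≤ M := Nat.lt_succ_iff.1 (mem_range.1 hk)
    rw [← pow_mul, ← pow_mul, ← pow_mul, ← pow_add, mul_comm]
    congr 2
    obtain ⟨j, rfl⟩ := Nat.exists_eq_add_of_le hk'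
    rw [Nat.add_sub_cancel_left]
    ring
  simp only [h3]
  rw [sum_comm, mul_sum, sum_filter]
  refine sum_congr rfl fun k _ => ?_
  rw [← mul_sum, root_sum h1 hu]
  split_ifs <;> ring

lemma filter_one_small (l : ℕ) (hl : 0 < l) :
    (range (4 * l + 1)).filter (fun k => 8 * l ∣ 4 * l + 4 * k) = {l, 3 * l} := by
  ext k
  simp only [mem_filter, mem_range, mem_insert, mem_singleton]
  constructor
  · rintro ⟨h1, c, hc⟩
    have h3 : l + k = 2 * l * c := by nlinarith
    have h4 : 1 ≤ c := by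
      rcases Nat.eq_zero_or_pos c with rfl | h
      · omega
      · exact h
    have h5 : c ≤ 2 := by
      by_contra h
      have : 3 ≤ c := by omega
      nlinarith
    interval_cases c
    · left; omega
    · right; omega
  · rintro (rfl | rfl)
    · exact ⟨by omega, 1, by ring⟩
    · exact ⟨by omega, 2, by ring⟩

lemma filter_one_big (l : ℕ) (hl : 0 < l) :
    (range (12 * l + 1)).filter (fun k => 8 * l ∣ 12 * l + 4 * k)
      = {l, 3 * l, 5 * l, 7 * l, 9 * l, 11 * l} := by
  ext k
  simp only [mem_filter, mem_range, mem_insert, mem_singleton]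
  constructor
  · rintro ⟨h1, c, hc⟩
    have h3 : 3 * l + k = 2 * l * c := by nlinarith
    have h4 : 2 ≤ c := by
      by_contra h
      have : c ≤ 1 := by omega
      nlinarith
    have h5 : c ≤ 7 := by
      by_contra h
      have : 8 ≤ c := by omega
      nlinarith
    interval_cases c <;> omega
  · rintro (rfl | rfl | rfl | rfl | rfl | rfl)
    · exact ⟨by omega, 2, by ring⟩
    · exact ⟨by omega, 3, by ring⟩
    · exact ⟨by omega, 4, by ring⟩
    · exact ⟨by omega, 5, by ring⟩
    · exact ⟨by omega, 6, by ring⟩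
    · exact ⟨by omega, 7, by ring⟩

/-- The value of `Phi p 1` modulo `p ^ 2` for `p = 8 l + 1`. -/
lemma Phi_one_value {l : ℕ} (hl : 0 < l) (hpl : p = 8 * l + 1) (g : (ZMod p)ˣ)
    (hg : ∀ x, x ∈ Subgroup.zpowers g) {y : ZMod (p ^ 2)}
    (hy : red p y = (((4 * l).choose l : ℕ) : ZMod p) * G p (4 * l) l (3 * l)
      + (((4 * l).choose l : ℕ) : ZMod p)⁻¹) :
    ((Phi p 1 : ℤ) : ZMod (p ^ 2))
      = -2 * (((4 * l).choose l : ZMod (p ^ 2)) + (p : ZMod (p ^ 2)) * y) := by
  have h2 : p ≠ 2 := by omega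
  have hPP := P_sq p
  have hord : orderOf g = p - 1 := by
    rw [orderOf_eq_card_of_forall_mem_zpowers hg, Nat.card_eq_fintype_card, ZMod.card_units]
  obtain ⟨g0, hg0⟩ := red_surj (g : ZMod p)
  set γ := g0 ^ p with hγ
  have hred : red p γ = (g : ZMod p) := by
    rw [hγ, map_pow, hg0, ZMod.pow_card]
  have hγ1 : γ ^ (p - 1) = 1 := by
    have h3 : red p (g0 ^ (p - 1)) = red p 1 := by
      rw [map_pow, hg0, map_one]
      have := pow_orderOf_eq_one g
      rw [hord] at this
      have := congrArg Units.val this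
      push_cast at this
      exact this
    obtain ⟨z, hz⟩ := red_congr h3
    rw [hγ, ← pow_mul, mul_comm, pow_mul, pow_eq_pow_of_congr hPP hz, one_pow]
  have hu : ∀ c : ℕ, ¬ (p - 1) ∣ c → IsUnit (γ ^ c - 1) := by
    intro c hc
    apply isUnit_of_red
    rw [map_sub, map_pow, hred, map_one, sub_ne_zero]
    intro h
    apply hc
    rw [← hord]
    apply orderOf_dvd_of_pow_eq_one
    apply Units.ext
    push_cast
    exact h
  have hval : ∀ e, chi p (red p (γ ^ (5 * e) + γ ^ e))
      = chi p ((g : ZMod p) ^ e) * chi p (((g : ZMod p) ^ e) ^ 4 + 1) := by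
    intro e
    rw [map_add, map_pow (red p) γ (5 * e), map_pow (red p) γ e, hred, ← map_mul]
    congr 1
    rw [mul_comm 5 e, pow_mul]
    ring
  have hm : p = 2 * (4 * l) + 1 := by omega
  have hsum : ∑ e ∈ range (p - 1), (3 * (γ ^ (5 * e) + γ ^ e) ^ (4 * l) - (γ ^ (5 * e) + γ ^ e) ^ (3 * (4 * l)))
      = 2 * ((Phi p 1 : ℤ) : ZMod (p ^ 2)) := by
    unfold Phi
    rw [sum_generator g hg, MulChar.map_zero, zero_mul, zero_add]
    push_cast
    rw [mul_sum]
    refine sum_congr rfl fun e _ => ?_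
    rw [sign_formula h2 hm (by omega), hval]
    push_cast
    ring
  rw [sum_sub_distrib, ← mul_sum, power_sum_one hγ1 hu, power_sum_one hγ1 hu,
    show 3 * (4 * l) = 12 * l by ring, show p - 1 = 8 * l by omega, filter_one_small l hl,
    filter_one_big l hl] at hsum
  rw [sum_insert (by simp; omega), sum_singleton, sum_insert (by simp; omega), sum_insert (by simp; omega),
    sum_insert (by simp; omega), sum_insert (by simp; omega), sum_insert (by simp; omega), sum_singleton] at hsum
  rw [show (4 * l).choose (3 * l) = (4 * l).choose l from Nat.choose_symm_of_eq_add (by omega),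
    show (12 * l).choose (7 * l) = (12 * l).choose (5 * l) from Nat.choose_symm_of_eq_add (by omega),
    show (12 * l).choose (9 * l) = (12 * l).choose (3 * l) from Nat.choose_symm_of_eq_add (by omega),
    show (12 * l).choose (11 * l) = (12 * l).choose l from Nat.choose_symm_of_eq_add (by omega)] at hsum
  have hcomb := comb_one hl hpl hy
  have hpc : (p : ZMod (p ^ 2)) - 1 = ((8 * l : ℕ) : ZMod (p ^ 2)) := by
    have := congrArg (Nat.cast : ℕ → ZMod (p ^ 2)) hpl
    push_cast at this ⊢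
    linear_combination this
  rw [hpc] at hcomb
  have h2u : (2 : ZMod (p ^ 2)) * ((2 : ℕ) : ZMod (p ^ 2))⁻¹ = 1 := by exact_mod_cast two_inv (p := p) h2
  set hf := ((2 : ℕ) : ZMod (p ^ 2))⁻¹
  linear_combination (-hf) * hsum + 2 * hf * hcomb
    + (-((Phi p 1 : ℤ) : ZMod (p ^ 2)) - 2 * (((4 * l).choose l : ZMod (p ^ 2)) + (p : ZMod (p ^ 2)) * y)) * h2u

end Pool.Agent.Lib.H66SC
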