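import Mathlib
import Pool.Agent.Lib.H66SC.CaseOne

open Finset Polynomial QuadraticAlgebra

namespace Pool.Agent.Lib.H66SC

variable {p : ℕ} [hp : Fact p.Prime]

/-- The quadratic extension `ZMod p [i]`. -/
abbrev FF (p : ℕ) := QuadraticAlgebra (ZMod p) (-1) 0

/-- The ring `ZMod (p ^ 2) [i]`. -/
abbrev BB (p : ℕ) := QuadraticAlgebra (ZMod (p ^ 2)) (-1) 0

noncomputable instance : Fintype (FF p) := Fintype.ofEquiv _ (equivProd (-1 : ZMod p) 0).symm

lemma sum_FF {M : Type*} [AddCommMonoid M] (f : FF p → M) :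
    ∑ a : FF p, f a = ∑ x : ZMod p, ∑ y : ZMod p, f ⟨x, y⟩ := by
  rw [← Fintype.sum_prod_type' (fun x y => f ⟨x, y⟩)]
  exact (Equiv.sum_comp (equivProd (-1 : ZMod p) 0).symm f).symm

lemma fact_three (h3 : p % 4 = 3) : Fact (∀ r : ZMod p, r ^ 2 ≠ -1 + 0 * r) := by
  refine ⟨fun r hr => ?_⟩
  have h : IsSquare (-1 : ZMod p) := ⟨r, by linear_combination -hr⟩
  rw [ZMod.exists_sq_eq_neg_one_iff] at h
  exact h h3

section field

variable [hF : Fact (∀ r : ZMod p, r ^ 2 ≠ -1 + 0 * r)]

lemma card_FF_units : Nat.card (FF p)ˣ = p ^ 2 - 1 := by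
  rw [Nat.card_eq_fintype_card, Fintype.card_units]
  congr 1
  rw [Fintype.card_congr (equivProd (-1 : ZMod p) 0), Fintype.card_prod, ZMod.card, sq]

instance : CharP (FF p) p := charP_of_injective_algebraMap (algebraMap (ZMod p) (FF p)).injective p

/-- Conjugation is the Frobenius map. -/
lemma star_eq_pow {k : ℕ} (hk : p = 4 * k + 3) (a : FF p) : star a = a ^ p := by
  have h1 : a = algebraMap (ZMod p) (FF p) a.re + algebraMap (ZMod p) (FF p) a.im * ω := by
    ext <;> simp
  have hω : (ω : FF p) ^ 2 = -1 := by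
    rw [sq, omega_mul_omega_eq_mk]
    ext <;> simp
  have hωp : (ω : FF p) ^ p = -ω := by
    have h5 := congrArg (fun n => (ω : FF p) ^ n) hk
    rw [h5, show 4 * k + 3 = 2 * (2 * k + 1) + 1 by ring, pow_succ, pow_mul, hω, pow_succ, pow_mul]
    simp
  conv_rhs => rw [h1]
  rw [add_pow_char, mul_pow, hωp, ← map_pow, ← map_pow, ZMod.pow_card, ZMod.pow_card]
  ext <;> simp

/-- The correlation sum. -/
lemma corr_one (h2 : p ≠ 2) : ∑ a : FF p, chi p (trace a) * chi p (trace (a * 1)) = (p : ℤ) * (p - 1) := by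
  rw [sum_FF]
  have h : ∀ x y : ZMod p, chi p (trace (⟨x, y⟩ : FF p)) * chi p (trace ((⟨x, y⟩ : FF p) * 1))
      = 1 - (if x = 0 then 1 else 0) := by
    intro x y
    rw [mul_one, trace_def]
    simp only [zero_mul, add_zero]
    split_ifs with hx
    · rw [hx, mul_zero, MulChar.map_zero]; ring
    · rw [chi_sq (mul_ne_zero (two_ne_zero_K h2) hx)]; ring
  simp only [h]
  rw [sum_comm]
  simp only [sum_sub_distrib, sum_ite_eq' univ (0 : ZMod p)]
  simp [ZMod.card]
  ring

omit hF in
lemma corr_zero (h2 : p ≠ 2) {v : FF p} (hv : v.im ≠ 0) :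
    ∑ a : FF p, chi p (trace a) * chi p (trace (a * v)) = 0 := by
  rw [sum_FF]
  apply sum_eq_zero
  intro x _
  have h : ∀ y : ZMod p, chi p (trace (⟨x, y⟩ : FF p)) * chi p (trace ((⟨x, y⟩ : FF p) * v))
      = chi p (2 * x) * chi p (2 * x * v.re + (-2 * v.im) * y) := by
    intro y
    rw [trace_def, trace_def]
    simp only [re_mul, zero_mul, add_zero]
    congr 2
    ring
  simp only [h]
  rw [← mul_sum]
  have hne : (-2 * v.im : ZMod p) ≠ 0 :=
    mul_ne_zero (neg_ne_zero.2 (two_ne_zero_K h2)) hv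
  have e : ∑ y : ZMod p, chi p (2 * x * v.re + (-2 * v.im) * y) = ∑ y : ZMod p, chi p y := by
    have e1 := Equiv.sum_comp (Equiv.addLeft (2 * x * v.re)) (fun y => chi p y)
    have e2 := Equiv.sum_comp (Equiv.mulLeft₀ (-2 * v.im) hne) (fun y => chi p (2 * x * v.re + y))
    exact e2.trans e1
  rw [e, quadraticChar_sum_zero (ringChar_ne_two (p := p) h2), mul_zero]

/-- The torus sum. -/
noncomputable def XF (p : ℕ) [Fact p.Prime] (η : FF p) (h : ℕ) (a : FF p) : ℤ :=
  ∑ e ∈ range h, chi p (trace (a * η ^ e))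

omit hF in
lemma XF_smul (η : FF p) (h : ℕ) (c : ZMod p) (a : FF p) :
    XF p η h (algebraMap (ZMod p) (FF p) c * a) = chi p c * XF p η h a := by
  unfold XF
  rw [mul_sum]
  refine sum_congr rfl fun e _ => ?_
  rw [← map_mul, mul_assoc, ← Algebra.smul_def, map_smul, smul_eq_mul]

lemma XF_eta {η : FF p} {h : ℕ} (hη : η ^ h = 1) (a : FF p) : XF p η h (a * η) = XF p η h a := by
  unfold XF
  have h1 : ∀ e, a * η * η ^ e = a * η ^ (e + 1) := by
    intro e; ring
  simp only [h1]
  have h3 := sum_range_succ (fun e => chi p (trace (a * η ^ e))) h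
  have h4 := sum_range_succ' (fun e => chi p (trace (a * η ^ e))) h
  rw [hη] at h3
  rw [pow_zero] at h4
  linarith

lemma XF_eta_pow {η : FF p} {h : ℕ} (hη : η ^ h = 1) (a : FF p) (n : ℕ) :
    XF p η h (a * η ^ n) = XF p η h a := by
  induction n with
  | zero => rw [pow_zero, mul_one]
  | succ n ih => rw [pow_succ, ← mul_assoc, XF_eta hη, ih]

lemma XF_star {η : FF p} {h : ℕ} (hη : η ^ h = 1) (hs : η * star η = 1) (a : FF p) :
    XF p η h (star a) = XF p η h a := by
  unfold XF
  rcases Nat.eq_zero_or_pos h with rfl | hh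
  · simp
  have h1 : ∀ e, trace (star a * η ^ e) = trace (a * star η ^ e) := by
    intro e
    rw [← trace_star (star a * η ^ e), star_mul', star_star, star_pow]
  simp only [h1]
  obtain ⟨n, rfl⟩ : ∃ n, h = n + 1 := ⟨h - 1, by omega⟩
  rw [sum_range_succ', sum_range_succ', pow_zero, pow_zero]
  congr 1
  rw [← sum_range_reflect]
  refine sum_congr rfl fun e he => ?_
  rw [mem_range] at he
  congr 3
  have h3 : (n - 1 - e + 1) + (e + 1) = n + 1 := by omega
  calc star η ^ (n - 1 - e + 1) = star η ^ (n - 1 - e + 1) * 1 := by rw [mul_one]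
    _ = star η ^ (n - 1 - e + 1) * η ^ (n + 1) := by rw [hη]
    _ = star η ^ (n - 1 - e + 1) * (η ^ (n - 1 - e + 1) * η ^ (e + 1)) := by
        rw [← pow_add, h3]
    _ = (η * star η) ^ (n - 1 - e + 1) * η ^ (e + 1) := by
        rw [mul_pow]; ring
    _ = η ^ (e + 1) := by rw [hs, one_pow, one_mul]

lemma XF_zero (η : FF p) (h : ℕ) : XF p η h 0 = 0 := by
  unfold XF
  apply sum_eq_zero
  intro e _
  rw [zero_mul, map_zero, MulChar.map_zero]

/-- Second moment of the torus sums. -/
lemma sum_XF_sq (h2 : p ≠ 2) {η : FF p} {h : ℕ} (hη : η ^ h = 1) (hodd : Odd h)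
    (hs : η * star η = 1) (hinj : ∀ c, 0 < c → c < h → η ^ c ≠ 1) :
    ∑ a : FF p, XF p η h a ^ 2 = h * ((p : ℤ) * (p - 1)) := by
  have hη0 : η ≠ 0 := left_ne_zero_of_mul (by rw [hs]; exact one_ne_zero)
  have h1 : ∀ a : FF p, XF p η h a ^ 2 = ∑ e ∈ range h, ∑ f ∈ range h,
      chi p (trace (a * η ^ e)) * chi p (trace (a * η ^ f)) := by
    intro a
    unfold XF
    rw [sq, sum_mul_sum]
  simp only [h1]
  rw [sum_comm]
  have hnorm : norm η = 1 := by
    apply (algebraMap (ZMod p) (FF p)).injective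
    rw [algebraMap_norm_eq_mul_star, hs, map_one]
  have h3 : ∀ e ∈ range h, ∑ a : FF p, ∑ f ∈ range h,
      chi p (trace (a * η ^ e)) * chi p (trace (a * η ^ f)) = (p : ℤ) * (p - 1) := by
    intro e he
    rw [sum_comm]
    have h4 : ∀ f ∈ range h, ∑ a : FF p, chi p (trace (a * η ^ e)) * chi p (trace (a * η ^ f))
        = if f = e then (p : ℤ) * (p - 1) else 0 := by
      intro f hf
      have h5 : ∑ a : FF p, chi p (trace (a * η ^ e)) * chi p (trace (a * η ^ f))
          = ∑ a : FF p, chi p (trace a) * chi p (trace (a * (η ^ f * (η ^ e)⁻¹))) := by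
        rw [← Equiv.sum_comp (Equiv.mulRight₀ (η ^ e) (pow_ne_zero e hη0))
          (fun a => chi p (trace a) * chi p (trace (a * (η ^ f * (η ^ e)⁻¹))))]
        refine sum_congr rfl fun a _ => ?_
        simp only [Equiv.mulRight₀_apply]
        congr 3
        have := pow_ne_zero e hη0
        field_simp
      rw [h5]
      split_ifs with hfe
      · rw [hfe, mul_inv_cancel₀ (pow_ne_zero e hη0)]
        exact corr_one h2
      · apply corr_zero h2
        intro him
        set v := η ^ f * (η ^ e)⁻¹ with hv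
        have hvh : v ^ h = 1 := by
          rw [hv, mul_pow, inv_pow, ← pow_mul, ← pow_mul, mul_comm f h, mul_comm e h, pow_mul, pow_mul, hη]
          simp
        have hvn : norm v = 1 := by
          have : norm v * norm (η ^ e) = norm (η ^ f) := by
            rw [← map_mul, hv, mul_assoc, inv_mul_cancel₀ (pow_ne_zero e hη0), mul_one]
          rw [map_pow, map_pow, hnorm, one_pow, one_pow, mul_one] at this
          exact this
        have hvre : v = algebraMap (ZMod p) (FF p) v.re := by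
          ext
          · rfl
          · rw [him]; rfl
        have hsq : v.re * v.re = 1 := by
          rw [norm_def, him] at hvn
          linear_combination hvn
        rw [mem_range] at he hf
        rcases mul_self_eq_one_iff.1 hsq with h6 | h6
        · rw [h6, map_one] at hvre
          have h7 : η ^ f = η ^ e := by
            have := congrArg (fun z => z * η ^ e) hvre
            simp only [hv, one_mul] at this
            rw [mul_assoc, inv_mul_cancel₀ (pow_ne_zero e hη0), mul_one] at this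
            exact this
          rcases lt_or_gt_of_ne hfe with h8 | h8
          · apply hinj (e - f) (by omega) (by omega)
            apply mul_left_cancel₀ (pow_ne_zero f hη0)
            rw [← pow_add, mul_one, h7]
            congr 1
            omega
          · apply hinj (f - e) (by omega) (by omega)
            apply mul_left_cancel₀ (pow_ne_zero e hη0)
            rw [← pow_add, mul_one, ← h7]
            congr 1
            omega
        · rw [h6, map_neg, map_one] at hvre
          rw [hvre, hodd.neg_one_pow] at hvh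
          have h9 := congrArg QuadraticAlgebra.re hvh
          simp only [re_neg, re_one] at h9
          apply two_ne_zero_K (p := p) h2
          linear_combination -h9
    rw [sum_congr rfl h4, sum_ite_eq' (range h) e]
    rw [if_pos he]
  rw [sum_congr rfl h3, sum_const, card_range]
  simp

/-- Sum over `FF p` through powers of a generator. -/
lemma sum_generator_FF {M : Type*} [AddCommMonoid M] (g : (FF p)ˣ)
    (hg : ∀ x, x ∈ Subgroup.zpowers g)
    (f : FF p → M) : ∑ x : FF p, f x = f 0 + ∑ e ∈ range (p ^ 2 - 1), f ((g : FF p) ^ e) := by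
  have hord : orderOf g = p ^ 2 - 1 := by
    rw [orderOf_eq_card_of_forall_mem_zpowers hg, card_FF_units]
  have h1 : ∑ e ∈ range (p ^ 2 - 1), f ((g : FF p) ^ e) = ∑ x ∈ univ.erase (0 : FF p), f x := by
    refine sum_bij (fun e _ => (g : FF p) ^ e) ?_ ?_ ?_ ?_
    · intro e _
      rw [mem_erase]
      exact ⟨pow_ne_zero _ g.ne_zero, mem_univ _⟩
    · intro a ha b hb hab
      rw [mem_range, ← hord] at ha hb
      have : g ^ a = g ^ b := Units.ext (by push_cast; exact hab)
      exact pow_injOn_Iio_orderOf ha hb this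
    · intro x hx
      rw [mem_erase] at hx
      have := IsCyclic.image_range_orderOf hg
      have hx' : Units.mk0 x hx.1 ∈ image (fun i => g ^ i) (range (orderOf g)) := by
        rw [this]; exact mem_univ _
      rw [mem_image] at hx'
      obtain ⟨e, he, hxe⟩ := hx'
      refine ⟨e, by rw [← hord]; exact he, ?_⟩
      have := congrArg Units.val hxe
      push_cast at this
      exact this
    · intro e _
      rfl
  rw [h1, ← sum_erase_add _ _ (mem_univ (0 : FF p)), add_comm]

/-- Data attached to a generator of the multiplicative group of `FF p`, `p = 8 k + 3`. -/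
lemma torus_data {k : ℕ} (hk : 0 < k) (hpk : p = 8 * k + 3) (g : (FF p)ˣ)
    (hg : ∀ x, x ∈ Subgroup.zpowers g) {η : FF p} (hηd : η = (g : FF p) ^ (4 * (p - 1))) :
    η ^ (2 * k + 1) = 1 ∧ η * star η = 1 ∧ (∀ c, 0 < c → c < 2 * k + 1 → η ^ c ≠ 1) ∧
      chi p (norm (g : FF p)) = -1 ∧
      (g : FF p) ^ 4 = algebraMap (ZMod p) (FF p) (norm (g : FF p) ^ (4 * k + 3)) * η ^ k := by
  have h2 : p ≠ 2 := by omega
  have hord : orderOf g = p ^ 2 - 1 := by
    rw [orderOf_eq_card_of_forall_mem_zpowers hg, card_FF_units]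
  have hp2 : p ^ 2 - 1 = 4 * (p - 1) * (2 * k + 1) := by
    obtain ⟨q, hq⟩ : ∃ q, q = p - 1 := ⟨_, rfl⟩
    have hq1 : p = q + 1 := by have := hp.out.pos; omega
    rw [← hq]
    have hq2 : q = 8 * k + 2 := by omega
    rw [hq1]
    have : (q + 1) ^ 2 - 1 = q * (q + 2) := by
      rw [show (q + 1) ^ 2 = q * (q + 2) + 1 by ring]; simp
    rw [this]
    have : q + 2 = 4 * (2 * k + 1) := by omega
    rw [this]; ring
  have hgord : (g : FF p) ^ (p ^ 2 - 1) = 1 := by
    have := pow_orderOf_eq_one g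
    rw [hord] at this
    have := congrArg Units.val this
    push_cast at this
    exact this
  have hstar : ∀ a : FF p, star a = a ^ p := star_eq_pow (k := 2 * k) (by omega)
  have hnorm : algebraMap (ZMod p) (FF p) (norm (g : FF p)) = (g : FF p) ^ (p + 1) := by
    rw [algebraMap_norm_eq_mul_star, hstar, pow_succ]
    ring
  have a1 : η ^ (2 * k + 1) = 1 := by
    rw [hηd, ← pow_mul, ← hp2, hgord]
  have a2 : η * star η = 1 := by
    rw [hstar, ← pow_succ', hηd, ← pow_mul,
      show 4 * (p - 1) * (p + 1) = (p ^ 2 - 1) * 4 by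
        rw [hp2, show p + 1 = 4 * (2 * k + 1) by omega]; ring, pow_mul, hgord, one_pow]
  have a3 : ∀ c, 0 < c → c < 2 * k + 1 → η ^ c ≠ 1 := by
    intro c hc hch h
    rw [hηd, ← pow_mul] at h
    have h' : g ^ (4 * (p - 1) * c) = 1 := by
      apply Units.ext
      push_cast
      exact h
    have h3 := orderOf_dvd_of_pow_eq_one h'
    rw [hord, hp2] at h3
    have h4 := Nat.dvd_of_mul_dvd_mul_left (by omega : 0 < 4 * (p - 1)) h3
    have := Nat.le_of_dvd hc h4
    omega
  have a4 : chi p (norm (g : FF p)) = -1 := by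
    have hn0 : norm (g : FF p) ≠ 0 := by
      rw [Ne, norm_eq_zero_iff_eq_zero]; exact g.ne_zero
    rcases quadraticChar_dichotomy hn0 with h | h
    · exfalso
      have h3 := quadraticChar_eq_pow_of_char_ne_two' (ringChar_ne_two (p := p) h2) (norm (g : FF p))
      rw [h, ZMod.card] at h3
      have h4 := congrArg (algebraMap (ZMod p) (FF p)) h3
      rw [map_pow, hnorm, ← pow_mul] at h4
      have h' : g ^ ((p + 1) * (p / 2)) = 1 := by
        apply Units.ext
        push_cast
        rw [← h4]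
        simp
      have h5 := orderOf_dvd_of_pow_eq_one h'
      rw [hord, hp2] at h5
      have := Nat.le_of_dvd (Nat.mul_pos (by omega) (by omega)) h5
      have e1 : p + 1 = 4 * (2 * k + 1) := by omega
      have e2 : p / 2 = 4 * k + 1 := by omega
      have e3 : p - 1 = 8 * k + 2 := by omega
      rw [e1, e2, e3] at this
      nlinarith
    · exact h
  have a5 : (g : FF p) ^ 4 = algebraMap (ZMod p) (FF p) (norm (g : FF p) ^ (4 * k + 3)) * η ^ k := by
    rw [map_pow, hnorm, hηd, ← pow_mul, ← pow_mul, ← pow_add]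
    have : (p + 1) * (4 * k + 3) + 4 * (p - 1) * k = 4 + (p ^ 2 - 1) := by
      rw [hp2, show p + 1 = 4 * (2 * k + 1) by omega, show p - 1 = 8 * k + 2 by omega]
      ring
    rw [this, pow_add, hgord, mul_one]
  exact ⟨a1, a2, a3, a4, a5⟩

/-- The Jacobsthal identity on the torus. -/
lemma four_sums_three {k : ℕ} (hk : 0 < k) (hpk : p = 8 * k + 3) (g : (FF p)ˣ)
    (hg : ∀ x, x ∈ Subgroup.zpowers g) {η : FF p} (hηd : η = (g : FF p) ^ (4 * (p - 1))) :
    XF p η (2 * k + 1) 1 ^ 2 + 2 * XF p η (2 * k + 1) g ^ 2 = p := by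
  have h2 : p ≠ 2 := by omega
  obtain ⟨a1, a2, a3, a4, a5⟩ := torus_data hk hpk g hg hηd
  have h1 := sum_XF_sq h2 a1 ⟨k, rfl⟩ a2 a3
  rw [sum_generator_FF g hg, XF_zero] at h1
  have hstar : ∀ a : FF p, star a = a ^ p := star_eq_pow (k := 2 * k) (by omega)
  have step : ∀ e, XF p η (2 * k + 1) ((g : FF p) ^ (e + 4)) = - XF p η (2 * k + 1) ((g : FF p) ^ e) := by
    intro e
    rw [pow_add, a5, ← mul_assoc, XF_eta_pow a1, mul_comm ((g : FF p) ^ e) _, XF_smul, map_pow, a4,
      Odd.neg_one_pow ⟨2 * k + 1, by ring⟩]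
    ring
  have step' : ∀ n e, XF p η (2 * k + 1) ((g : FF p) ^ (e + 4 * n))
      = (-1) ^ n * XF p η (2 * k + 1) ((g : FF p) ^ e) := by
    intro n
    induction n with
    | zero => intro e; simp
    | succ n ih =>
      intro e
      rw [show e + 4 * (n + 1) = (e + 4 * n) + 4 by ring, step, ih, pow_succ]
      ring
  have hp2 : p ^ 2 - 1 = 4 * ((8 * k + 2) * (2 * k + 1)) := by
    rw [hpk, show (8 * k + 3) ^ 2 = 4 * ((8 * k + 2) * (2 * k + 1)) + 1 by ring]
    simp
  have hper := sum_periodic (fun e => XF p η (2 * k + 1) ((g : FF p) ^ e) ^ 2) 4 (by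
    intro e
    simp only [step]
    ring) ((8 * k + 2) * (2 * k + 1))
  rw [← hp2] at hper
  rw [hper] at h1
  simp only [sum_range_succ, sum_range_zero, pow_zero, pow_one, zero_add] at h1
  have e2 : XF p η (2 * k + 1) ((g : FF p) ^ 2) = 0 := by
    have b1 := XF_star a1 a2 ((g : FF p) ^ 2)
    rw [hstar, ← pow_mul, show 2 * p = 2 + 4 * (4 * k + 1) by omega, step',
      Odd.neg_one_pow ⟨2 * k, by ring⟩] at b1
    linarith
  have e3 : XF p η (2 * k + 1) ((g : FF p) ^ 3) = XF p η (2 * k + 1) (g : FF p) := by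
    have b1 := XF_star a1 a2 (g : FF p)
    rw [hstar, show (g : FF p) ^ p = (g : FF p) ^ (3 + 4 * (2 * k)) by congr 1; omega, step',
      Even.neg_one_pow ⟨k, by ring⟩, one_mul] at b1
    exact b1
  rw [e2, e3] at h1
  have hpz : (p : ℤ) = 8 * k + 3 := by exact_mod_cast hpk
  have hkz : ((8 * (k : ℤ) + 2) * (2 * k + 1)) ≠ 0 := by positivity
  apply mul_left_cancel₀ hkz
  push_cast at h1
  rw [hpz] at h1 ⊢
  linear_combination h1

/-- Parity of the torus sum at `1`. -/
lemma XF_one_parity {k : ℕ} (hpk : p = 8 * k + 3) {η : FF p}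
    (a1 : η ^ (2 * k + 1) = 1) (a2 : η * star η = 1)
    (a3 : ∀ c, 0 < c → c < 2 * k + 1 → η ^ c ≠ 1) :
    ∃ j : ℤ, XF p η (2 * k + 1) 1 = 2 * k - 1 + 4 * j := by
  have h2 : p ≠ 2 := by omega
  have hη0 : η ≠ 0 := left_ne_zero_of_mul (by rw [a2]; exact one_ne_zero)
  set f : ℕ → ℤ := fun e => chi p (trace (η ^ e)) with hf
  have h1 : XF p η (2 * k + 1) 1 = ∑ e ∈ range (2 * k + 1), f e := by
    unfold XF
    simp only [one_mul, hf]
  have hstarpow : ∀ e, e ≤ 2 * k + 1 → star η ^ e = η ^ (2 * k + 1 - e) := by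
    intro e he
    apply mul_right_cancel₀ (pow_ne_zero e hη0)
    rw [← pow_add, show 2 * k + 1 - e + e = 2 * k + 1 by omega, a1, ← mul_pow, mul_comm, a2, one_pow]
  have hsym : ∀ e, e ≤ 2 * k + 1 → f (2 * k + 1 - e) = f e := by
    intro e he
    simp only [hf]
    rw [← hstarpow e he, ← star_pow, trace_star]
  have f0 : f 0 = -1 := by
    simp only [hf, pow_zero, trace_one]
    rw [quadraticChar_neg_one_iff_not_isSquare, FiniteField.isSquare_two_iff, ZMod.card]
    omega
  have hodd : ∀ e < k, f (e + 1) = 1 ∨ f (e + 1) = -1 := by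
    intro e he
    apply quadraticChar_dichotomy
    intro h
    have h3 : η ^ (e + 1) + star (η ^ (e + 1)) = 0 := by
      rw [← algebraMap_trace_eq_add_star, h, map_zero]
    have h4 : η ^ (2 * (e + 1)) = -1 := by
      have h5 : η ^ (e + 1) * star (η ^ (e + 1)) = 1 := by
        rw [star_pow, ← mul_pow, a2, one_pow]
      rw [two_mul, pow_add]
      linear_combination (η ^ (e + 1)) * h3 - h5
    have h6 : η ^ (4 * (e + 1)) = 1 := by
      rw [show 4 * (e + 1) = 2 * (e + 1) * 2 by ring, pow_mul, h4]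
      ring
    -- the order of `η` is odd, hence `η ^ (e + 1) = 1`
    have h7 : η ^ (e + 1) = 1 := by
      have h8 : η ^ ((2 * k + 1) * (e + 1)) = 1 := by rw [pow_mul, a1, one_pow]
      have h9 : ∀ n m, η ^ n = 1 → η ^ m = 1 → η ^ (Nat.gcd n m) = 1 := by
        intro n m hn hm
        rw [← orderOf_dvd_iff_pow_eq_one] at hn hm ⊢
        exact Nat.dvd_gcd hn hm
      have h10 := h9 _ _ h6 h8
      have h11 : Nat.gcd (4 * (e + 1)) ((2 * k + 1) * (e + 1)) = e + 1 := by
        rw [Nat.gcd_mul_right]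
        have : Nat.gcd 4 (2 * k + 1) = 1 := by
          have : Nat.Coprime (2 ^ 2) (2 * k + 1) := Nat.Coprime.pow_left 2 (by
            rw [Nat.coprime_two_left]; exact ⟨k, rfl⟩)
          exact this
        rw [this, one_mul]
      rw [h11] at h10
      exact h10
    exact a3 (e + 1) (by omega) (by omega) h7
  have hsum : ∑ e ∈ range (2 * k + 1), f e = f 0 + 2 * ∑ e ∈ range k, f (e + 1) := by
    rw [sum_range_succ', two_mul k, sum_range_add]
    have h3 : ∑ e ∈ range k, f (k + e + 1) = ∑ e ∈ range k, f (e + 1) := by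
      rw [← sum_range_reflect]
      refine sum_congr rfl fun e he => ?_
      rw [mem_range] at he
      rw [← hsym (e + 1) (by omega)]
      congr 1
      omega
    rw [h3]
    ring
  obtain ⟨j, hj⟩ := odd_sum_parity (fun e => f (e + 1)) k hodd
  refine ⟨j, ?_⟩
  rw [h1, hsum, f0, hj]
  ring

/-- The reduction `ZMod (p ^ 2) [i] → ZMod p [i]`. -/
noncomputable def rho (p : ℕ) : BB p →+* FF p where
  toFun z := ⟨red p z.re, red p z.im⟩
  map_zero' := by ext <;> simp
  map_one' := by ext <;> simp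
  map_add' z w := by ext <;> simp
  map_mul' z w := by ext <;> simp

omit hF in
lemma P_sq_BB (p : ℕ) : ((p : ℕ) : BB p) ^ 2 = 0 := by
  rw [← map_natCast (algebraMap (ZMod (p ^ 2)) (BB p)), ← map_pow, P_sq, map_zero]

omit hF in
lemma rho_ker {z : BB p} (h : rho p z = 0) : ∃ b, z = (p : BB p) * b := by
  have h1 : red p z.re = 0 := congrArg QuadraticAlgebra.re h
  have h3 : red p z.im = 0 := congrArg QuadraticAlgebra.im h
  obtain ⟨b1, hb1⟩ := red_ker h1
  obtain ⟨b2, hb2⟩ := red_ker h3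
  refine ⟨⟨b1, b2⟩, ?_⟩
  rw [← map_natCast (algebraMap (ZMod (p ^ 2)) (BB p))]
  ext
  · simp [hb1]
  · simp [hb2]

omit hF in
lemma rho_congr {a b : BB p} (h : rho p a = rho p b) : ∃ c, a = b + (p : BB p) * c := by
  obtain ⟨c, hc⟩ := rho_ker (p := p) (z := a - b) (by rw [map_sub, h, sub_self])
  exact ⟨c, by rw [← hc]; ring⟩

lemma isUnit_of_rho {b : BB p} (h : rho p b ≠ 0) : IsUnit b := by
  rw [isUnit_iff_norm_isUnit]
  apply isUnit_of_red
  have h1 : red p (norm b) = norm (rho p b) := by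
    rw [norm_def, norm_def]
    simp [rho]
  rw [h1, Ne, norm_eq_zero_iff_eq_zero]
  exact h

omit hp hF in
/-- The power sums for `p = 8 k + 3`. -/
lemma power_sum_three {h : ℕ} {w : BB p} (hh : 0 < h) (h1 : w ^ h = 1) (hs : w * star w = 1)
    (hu : ∀ c : ℕ, ¬ h ∣ c → IsUnit (w ^ c - 1)) (M : ℕ) :
    ∑ e ∈ range h, (trace (w ^ e)) ^ M
      = (h : ZMod (p ^ 2)) * ∑ k ∈ (range (M + 1)).filter (fun k => h ∣ k + (h - 1) * (M - k)),
          (M.choose k : ZMod (p ^ 2)) := by
  have hstar : star w = w ^ (h - 1) := by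
    have hw : w ^ (h - 1) * w = 1 := by
      rw [← pow_succ, show h - 1 + 1 = h by omega, h1]
    calc star w = (w ^ (h - 1) * w) * star w := by rw [hw, one_mul]
      _ = w ^ (h - 1) * (w * star w) := by ring
      _ = w ^ (h - 1) := by rw [hs, mul_one]
  have hinj : Function.Injective (algebraMap (ZMod (p ^ 2)) (BB p)) := by
    intro a b hab
    exact congrArg QuadraticAlgebra.re hab
  apply hinj
  rw [map_sum, map_mul, map_natCast, map_sum]
  have h3 : ∀ e, algebraMap (ZMod (p ^ 2)) (BB p) (trace (w ^ e) ^ M)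
      = ∑ k ∈ range (M + 1), (M.choose k : BB p) * (w ^ (k + (h - 1) * (M - k))) ^ e := by
    intro e
    rw [map_pow, algebraMap_trace_eq_add_star, star_pow, hstar, add_pow]
    refine sum_congr rfl fun k _ => ?_
    rw [← pow_mul, ← pow_mul, ← pow_mul, ← pow_mul, ← pow_add, mul_comm]
    congr 2
    ring
  rw [sum_congr rfl (fun e _ => h3 e), sum_comm, mul_sum, sum_filter]
  refine sum_congr rfl fun k _ => ?_
  rw [← mul_sum, root_sum h1 hu]
  split_ifs
  · rw [map_natCast]; ring
  · ring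

lemma filter_three_small (a : ℕ) :
    (range (4 * a + 1 + 1)).filter (fun k => 2 * a + 1 ∣ k + (2 * a + 1 - 1) * (4 * a + 1 - k))
      = {a, 3 * a + 1} := by
  ext k
  simp only [mem_filter, mem_range, mem_insert, mem_singleton]
  constructor
  · rintro ⟨h1, c, hc⟩
    obtain ⟨j, hj⟩ : ∃ j, j = 4 * a + 1 - k := ⟨_, rfl⟩
    have hk : k = 4 * a + 1 - j := by omega
    have hj' : k + j = 4 * a + 1 := by omega
    rw [← hj, show 2 * a + 1 - 1 = 2 * a by omega] at hc
    -- `k - j` is a multiple of `2a+1`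
    have hd : (2 * (a : ℤ) + 1) ∣ (k : ℤ) - j := by
      refine ⟨c - j, ?_⟩
      have : (k : ℤ) + 2 * a * j = (2 * a + 1) * c := by exact_mod_cast hc
      linear_combination this
    obtain ⟨d, hd⟩ := hd
    have hjz : (k : ℤ) + j = 4 * a + 1 := by exact_mod_cast hj'
    have h4 : 2 * (k : ℤ) + 1 = (2 * a + 1) * (d + 2) := by linear_combination hd + hjz
    have h5 : d + 2 ≤ 3 := by
      by_contra h
      have : 4 ≤ d + 2 := by omega
      nlinarith
    have h6 : 1 ≤ d + 2 := by
      by_contra h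
      have : d + 2 ≤ 0 := by omega
      nlinarith
    obtain ⟨q, hq⟩ : ∃ q, q = d + 2 := ⟨_, rfl⟩
    rw [← hq] at h4 h5 h6
    interval_cases q
    · left; omega
    · exfalso; omega
    · right; omega
  · rintro (rfl | rfl)
    · refine ⟨by omega, 3 * k, ?_⟩
      rw [show 2 * k + 1 - 1 = 2 * k by omega, show 4 * k + 1 - k = 3 * k + 1 by omega]
      ring
    · refine ⟨by omega, a + 1, ?_⟩
      rw [show 2 * a + 1 - 1 = 2 * a by omega, show 4 * a + 1 - (3 * a + 1) = a by omega]
      ring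

lemma filter_three_big (a : ℕ) (ha : 0 < a) :
    (range (12 * a + 3 + 1)).filter (fun k => 2 * a + 1 ∣ k + (2 * a + 1 - 1) * (12 * a + 3 - k))
      = {a - 1, 3 * a, 5 * a + 1, 7 * a + 2, 9 * a + 3, 11 * a + 4} := by
  ext k
  simp only [mem_filter, mem_range, mem_insert, mem_singleton]
  have back : ∀ k, k < 12 * a + 3 + 1 → (∃ d : ℤ, (k : ℤ) - (12 * a + 3 - k) = (2 * a + 1) * d) →
      2 * a + 1 ∣ k + (2 * a + 1 - 1) * (12 * a + 3 - k) := by
    rintro k hk ⟨d, hd⟩
    obtain ⟨j, hj⟩ : ∃ j, j = 12 * a + 3 - k := ⟨_, rfl⟩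
    rw [← hj, show 2 * a + 1 - 1 = 2 * a by omega]
    have hj' : k + j = 12 * a + 3 := by omega
    have hjz : (k : ℤ) + j = 12 * a + 3 := by exact_mod_cast hj'
    have : ((2 * a + 1 : ℕ) : ℤ) ∣ ((k + 2 * a * j : ℕ) : ℤ) := by
      refine ⟨d + j, ?_⟩
      push_cast
      linear_combination hd - hjz
    exact_mod_cast this
  constructor
  · rintro ⟨h1, c, hc⟩
    obtain ⟨j, hj⟩ : ∃ j, j = 12 * a + 3 - k := ⟨_, rfl⟩
    have hj' : k + j = 12 * a + 3 := by omega
    rw [← hj, show 2 * a + 1 - 1 = 2 * a by omega] at hc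
    have hd : (2 * (a : ℤ) + 1) ∣ (k : ℤ) - j := by
      refine ⟨c - j, ?_⟩
      have : (k : ℤ) + 2 * a * j = (2 * a + 1) * c := by exact_mod_cast hc
      linear_combination this
    obtain ⟨d, hd⟩ := hd
    have hjz : (k : ℤ) + j = 12 * a + 3 := by exact_mod_cast hj'
    have h4 : 2 * (k : ℤ) + 3 = (2 * a + 1) * (d + 6) := by linear_combination hd + hjz
    have h5 : d + 6 ≤ 11 := by
      by_contra h
      have : 12 ≤ d + 6 := by omega
      nlinarith
    have h6 : 1 ≤ d + 6 := by
      by_contra h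
      have : d + 6 ≤ 0 := by omega
      nlinarith
    obtain ⟨q, hq⟩ : ∃ q, q = d + 6 := ⟨_, rfl⟩
    rw [← hq] at h4 h5 h6
    interval_cases q <;> omega
  · rintro (rfl | rfl | rfl | rfl | rfl | rfl)
    · exact ⟨by omega, back _ (by omega) ⟨-5, by push_cast [Nat.cast_sub (show 1 ≤ a by omega)]; ring⟩⟩
    · exact ⟨by omega, back _ (by omega) ⟨-3, by push_cast; ring⟩⟩
    · exact ⟨by omega, back _ (by omega) ⟨-1, by push_cast; ring⟩⟩
    · exact ⟨by omega, back _ (by omega) ⟨1, by push_cast; ring⟩⟩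
    · exact ⟨by omega, back _ (by omega) ⟨3, by push_cast; ring⟩⟩
    · exact ⟨by omega, back _ (by omega) ⟨5, by push_cast; ring⟩⟩

/-- The value of the torus sum modulo `p ^ 2` for `p = 8 k + 3`. -/
lemma XF_one_value {k : ℕ} (hk : 0 < k) (hpk : p = 8 * k + 3) {η : FF p}
    (a1 : η ^ (2 * k + 1) = 1) (a2 : η * star η = 1)
    (a3 : ∀ c, 0 < c → c < 2 * k + 1 → η ^ c ≠ 1) {y : ZMod (p ^ 2)}
    (hy : red p y = (((4 * k + 1).choose k : ℕ) : ZMod p) * G p (4 * k + 1) k (3 * k + 1)
      + (((4 * k + 1).choose k : ℕ) : ZMod p)⁻¹) :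
    2 * ((XF p η (2 * k + 1) 1 : ℤ) : ZMod (p ^ 2))
      = ((4 * k + 1).choose k : ZMod (p ^ 2)) + (p : ZMod (p ^ 2)) * y := by
  have h2 : p ≠ 2 := by omega
  have hPP := P_sq p
  have hPB := P_sq_BB p
  have hstar : ∀ a : FF p, star a = a ^ p := star_eq_pow (k := 2 * k) (by omega)
  -- a lift of `η ^ p`
  obtain ⟨r1, hr1⟩ := red_surj (η ^ p).re
  obtain ⟨r2, hr2⟩ := red_surj (η ^ p).im
  set θ : BB p := ⟨r1, r2⟩ with hθ
  have hρθ : rho p θ = η ^ p := by
    ext
    · exact hr1
    · exact hr2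
  set w := θ ^ p with hw
  have hpp : η ^ (p * p) = η := by
    have e1 : η ^ (p * p) * star η = η * star η := by
      rw [hstar, ← pow_add, ← pow_succ']
      have : p * p + p = (p + 1) * p := by ring
      rw [this, show p + 1 = (2 * k + 1) * 4 by omega, mul_assoc, pow_mul, a1, one_pow,
        pow_mul, a1, one_pow]
    have hs0 : star η ≠ 0 := right_ne_zero_of_mul (by rw [a2]; exact one_ne_zero)
    exact mul_right_cancel₀ hs0 e1
  have hρw : rho p w = η := by
    rw [hw, map_pow, hρθ, ← pow_mul, hpp]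
  have hw1 : w ^ (2 * k + 1) = 1 := by
    have h3 : rho p (θ ^ (2 * k + 1)) = rho p 1 := by
      rw [map_pow, hρθ, map_one, ← pow_mul, mul_comm, pow_mul, a1, one_pow]
    obtain ⟨z, hz⟩ := rho_congr h3
    rw [hw, ← pow_mul, mul_comm, pow_mul, pow_eq_pow_of_congr hPB hz, one_pow]
  have hρstar : ∀ z : BB p, rho p (star z) = star (rho p z) := by
    intro z
    ext <;> simp [rho]
  have hws : w * star w = 1 := by
    have h3 : rho p (θ * star θ) = rho p 1 := by
      rw [map_mul, hρstar, hρθ, map_one, star_pow, ← mul_pow, a2, one_pow]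
    obtain ⟨z, hz⟩ := rho_congr h3
    rw [hw, star_pow, ← mul_pow, pow_eq_pow_of_congr hPB hz, one_pow]
  have hu : ∀ c : ℕ, ¬ (2 * k + 1) ∣ c → IsUnit (w ^ c - 1) := by
    intro c hc
    apply isUnit_of_rho
    rw [map_sub, map_pow (rho p) w c, hρw, map_one, sub_ne_zero]
    intro h
    have h3 : η ^ (c % (2 * k + 1)) = 1 := by
      rw [← h]
      conv_rhs => rw [← Nat.div_add_mod c (2 * k + 1)]
      rw [pow_add, pow_mul, a1, one_pow, one_mul]
    have h4 : 0 < c % (2 * k + 1) := Nat.pos_of_ne_zero (fun h0 => hc (Nat.dvd_of_mod_eq_zero h0))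
    exact a3 _ h4 (Nat.mod_lt _ (by omega)) h3
  have hval : ∀ e, red p (trace (w ^ e)) = trace (η ^ e) := by
    intro e
    have h3 : rho p (w ^ e) = η ^ e := by rw [map_pow (rho p) w e, hρw]
    rw [← h3, trace_def, trace_def]
    simp only [zero_mul, add_zero, map_mul, map_ofNat]
    rfl
  have hm : p = 2 * (4 * k + 1) + 1 := by omega
  have hsum : ∑ e ∈ range (2 * k + 1), (3 * (trace (w ^ e)) ^ (4 * k + 1) - (trace (w ^ e)) ^ (3 * (4 * k + 1)))
      = 2 * ((XF p η (2 * k + 1) 1 : ℤ) : ZMod (p ^ 2)) := by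
    unfold XF
    push_cast
    rw [mul_sum]
    refine sum_congr rfl fun e _ => ?_
    rw [sign_formula h2 hm (by omega), hval, one_mul]
  rw [sum_sub_distrib, ← mul_sum, power_sum_three (by omega) hw1 hws hu,
    power_sum_three (by omega) hw1 hws hu,
    show 3 * (4 * k + 1) = 12 * k + 3 by ring, filter_three_small k, filter_three_big k hk] at hsum
  rw [sum_insert (by simp; omega), sum_singleton, sum_insert (by simp; omega), sum_insert (by simp; omega),
    sum_insert (by simp; omega), sum_insert (by simp; omega), sum_insert (by simp; omega), sum_singleton] at hsum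
  rw [show (4 * k + 1).choose (3 * k + 1) = (4 * k + 1).choose k from Nat.choose_symm_of_eq_add (by omega),
    show (12 * k + 3).choose (7 * k + 2) = (12 * k + 3).choose (5 * k + 1) from Nat.choose_symm_of_eq_add (by omega),
    show (12 * k + 3).choose (9 * k + 3) = (12 * k + 3).choose (3 * k) from Nat.choose_symm_of_eq_add (by omega),
    show (12 * k + 3).choose (11 * k + 4) = (12 * k + 3).choose (k - 1) from Nat.choose_symm_of_eq_add (by omega)] at hsum
  have hcomb := comb_three hk hpk hy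
  have hpc : (p : ZMod (p ^ 2)) + 1 = 4 * ((2 * k + 1 : ℕ) : ZMod (p ^ 2)) := by
    have := congrArg (Nat.cast : ℕ → ZMod (p ^ 2)) hpk
    push_cast at this ⊢
    linear_combination this
  rw [hpc] at hcomb
  have h2u : (2 : ZMod (p ^ 2)) * ((2 : ℕ) : ZMod (p ^ 2))⁻¹ = 1 := by exact_mod_cast two_inv (p := p) h2
  set hf := ((2 : ℕ) : ZMod (p ^ 2))⁻¹
  linear_combination (-1) * hsum + hf * hcomb
    + (((4 * k + 1).choose k : ZMod (p ^ 2)) + (p : ZMod (p ^ 2)) * y
      - 2 * ((2 * k + 1 : ℕ) : ZMod (p ^ 2)) * (3 * ((4 * k + 1).choose k : ZMod (p ^ 2))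
      - ((12 * k + 3).choose (k - 1) : ZMod (p ^ 2))
      - ((12 * k + 3).choose (3 * k) : ZMod (p ^ 2)) - ((12 * k + 3).choose (5 * k + 1) : ZMod (p ^ 2)))) * h2u

end field

end Pool.Agent.Lib.H66SC
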