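import Mathlib
import Pool.Agent.Lib.H66SC.CaseThree

open Finset Polynomial

set_option linter.unusedSectionVars false

namespace Pool.Agent.Lib.H66SC

variable {p : ℕ} [hp : Fact p.Prime]

/-- `Rep u α`: the rational `u` is `p`-integral and reduces to `α` modulo `p ^ 2`. -/
def Rep (p : ℕ) (u : ℚ) (α : ZMod (p ^ 2)) : Prop :=
  ∃ n d : ℤ, IsUnit (d : ZMod (p ^ 2)) ∧ u * d = n ∧ (n : ZMod (p ^ 2)) = α * d

lemma one_ne_zero_A : (1 : ZMod (p ^ 2)) ≠ 0 := by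
  intro h
  have := congrArg (red p) h
  rw [map_one, map_zero] at this
  exact one_ne_zero this

lemma int_ne_zero_of_isUnit {d : ℤ} (h : IsUnit (d : ZMod (p ^ 2))) : (d : ℚ) ≠ 0 := by
  intro h0
  have : d = 0 := by exact_mod_cast h0
  rw [this, Int.cast_zero] at h
  obtain ⟨v, hv⟩ := isUnit_iff_exists_inv.1 h
  rw [zero_mul] at hv
  exact one_ne_zero_A hv.symm

lemma Rep.int (n : ℤ) : Rep p n n := ⟨n, 1, by simp, by simp, by simp⟩

lemma Rep.nat (n : ℕ) : Rep p n n := ⟨n, 1, by simp, by simp, by simp⟩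

lemma Rep.add {u v : ℚ} {α β : ZMod (p ^ 2)} (hu : Rep p u α) (hv : Rep p v β) :
    Rep p (u + v) (α + β) := by
  obtain ⟨n, d, h1, h2, h3⟩ := hu
  obtain ⟨n', d', h1', h2', h3'⟩ := hv
  refine ⟨n * d' + n' * d, d * d', ?_, ?_, ?_⟩
  · push_cast; exact h1.mul h1'
  · push_cast; linear_combination (d' : ℚ) * h2 + (d : ℚ) * h2'
  · push_cast; linear_combination (d' : ZMod (p ^ 2)) * h3 + (d : ZMod (p ^ 2)) * h3'

lemma Rep.mul {u v : ℚ} {α β : ZMod (p ^ 2)} (hu : Rep p u α) (hv : Rep p v β) :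
    Rep p (u * v) (α * β) := by
  obtain ⟨n, d, h1, h2, h3⟩ := hu
  obtain ⟨n', d', h1', h2', h3'⟩ := hv
  refine ⟨n * n', d * d', ?_, ?_, ?_⟩
  · push_cast; exact h1.mul h1'
  · push_cast; rw [← h2, ← h2']; ring
  · push_cast; rw [h3, h3']; ring

lemma Rep.neg {u : ℚ} {α : ZMod (p ^ 2)} (hu : Rep p u α) : Rep p (-u) (-α) := by
  obtain ⟨n, d, h1, h2, h3⟩ := hu
  refine ⟨-n, d, h1, ?_, ?_⟩
  · push_cast; linear_combination -h2
  · push_cast; linear_combination -h3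

lemma Rep.sub {u v : ℚ} {α β : ZMod (p ^ 2)} (hu : Rep p u α) (hv : Rep p v β) :
    Rep p (u - v) (α - β) := by
  rw [sub_eq_add_neg, sub_eq_add_neg]; exact hu.add hv.neg

lemma Rep.inv {u : ℚ} {α : ZMod (p ^ 2)} (hu : Rep p u α) (hα : IsUnit α) :
    Rep p u⁻¹ α⁻¹ := by
  obtain ⟨n, d, h1, h2, h3⟩ := hu
  have hn : IsUnit (n : ZMod (p ^ 2)) := by rw [h3]; exact hα.mul h1
  have hn0 := int_ne_zero_of_isUnit hn
  have hu0 : u ≠ 0 := by
    intro h
    rw [h, zero_mul] at h2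
    exact hn0 h2.symm
  refine ⟨d, n, hn, ?_, ?_⟩
  · rw [← h2]; field_simp
  · rw [h3, ← mul_assoc, ZMod.inv_mul_of_unit _ hα, one_mul]

lemma Rep.pow {u : ℚ} {α : ZMod (p ^ 2)} (hu : Rep p u α) (n : ℕ) : Rep p (u ^ n) (α ^ n) := by
  induction n with
  | zero => simpa using Rep.nat (p := p) 1
  | succ n ih => rw [pow_succ, pow_succ]; exact ih.mul hu

lemma Rep.sum {n : ℕ} {f : ℕ → ℚ} {F : ℕ → ZMod (p ^ 2)} (h : ∀ i < n, Rep p (f i) (F i)) :
    Rep p (∑ i ∈ range n, f i) (∑ i ∈ range n, F i) := by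
  induction n with
  | zero => simpa using Rep.nat (p := p) 0
  | succ n ih =>
    rw [sum_range_succ, sum_range_succ]
    exact (ih (fun i hi => h i (by omega))).add (h n (by omega))

lemma Rep.prod {n : ℕ} {f : ℕ → ℚ} {F : ℕ → ZMod (p ^ 2)} (h : ∀ i < n, Rep p (f i) (F i)) :
    Rep p (∏ i ∈ range n, f i) (∏ i ∈ range n, F i) := by
  induction n with
  | zero => simpa using Rep.nat (p := p) 1
  | succ n ih =>
    rw [prod_range_succ, prod_range_succ]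
    exact (ih (fun i hi => h i (by omega))).mul (h n (by omega))

lemma not_dvd_of_isUnit {d : ℤ} (h : IsUnit (d : ZMod (p ^ 2))) : ¬ (p : ℤ) ∣ d := by
  rintro ⟨c, rfl⟩
  have h1 := h.map (red p)
  push_cast at h1
  rw [map_mul, red_P, zero_mul] at h1
  exact not_isUnit_zero h1

/-- Equal reductions give a congruence modulo `p ^ 2`. -/
lemma Rep.dvd_num {u : ℚ} (hu : Rep p u 0) : ((p ^ 2 : ℕ) : ℤ) ∣ u.num := by
  obtain ⟨n, d, h1, h2, h3⟩ := hu
  rw [zero_mul] at h3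
  have h4 : ((p ^ 2 : ℕ) : ℤ) ∣ n := (ZMod.intCast_zmod_eq_zero_iff_dvd n (p ^ 2)).1 h3
  have h5 : u.num * d = n * u.den := by
    have : (u.num : ℚ) * d = n * u.den := by
      rw [← h2, ← Rat.mul_den_eq_num]; ring
    exact_mod_cast this
  have h6 : ((p ^ 2 : ℕ) : ℤ) ∣ u.num * d := by rw [h5]; exact dvd_mul_of_dvd_left h4 _
  have h7 : IsCoprime ((p ^ 2 : ℕ) : ℤ) d := by
    push_cast
    apply IsCoprime.pow_left
    rw [Prime.coprime_iff_not_dvd (Nat.prime_iff_prime_int.1 hp.out)]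
    exact not_dvd_of_isUnit h1
  exact h7.dvd_of_dvd_mul_right h6

lemma Rep.dvd_num_one {u : ℚ} {α : ZMod (p ^ 2)} (hu : Rep p u α) (hα : red p α = 0) :
    (p : ℤ) ∣ u.num := by
  obtain ⟨n, d, h1, h2, h3⟩ := hu
  have h3' : (n : ZMod p) = 0 := by
    have := congrArg (red p) h3
    rw [map_intCast, map_mul, hα, zero_mul] at this
    exact this
  have h4 : (p : ℤ) ∣ n := (ZMod.intCast_zmod_eq_zero_iff_dvd n p).1 h3'
  have h5 : u.num * d = n * u.den := by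
    have : (u.num : ℚ) * d = n * u.den := by
      rw [← h2, ← Rat.mul_den_eq_num]; ring
    exact_mod_cast this
  have h6 : (p : ℤ) ∣ u.num * d := by rw [h5]; exact dvd_mul_of_dvd_left h4 _
  exact ((Nat.prime_iff_prime_int.1 hp.out).dvd_or_dvd h6).resolve_right (not_dvd_of_isUnit h1)

/-- Uniqueness of the representation by `x ^ 2 + 2 y ^ 2`. -/
lemma rep_unique {x y X Y : ℤ} (h1 : (p : ℤ) = x ^ 2 + 2 * y ^ 2)
    (h2 : (p : ℤ) = X ^ 2 + 2 * Y ^ 2) : x = X ∨ x = -X := by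
  have hpr := Nat.prime_iff_prime_int.1 hp.out
  have hp0 : (0 : ℤ) < p := by exact_mod_cast hp.out.pos
  have key : x ^ 2 * Y ^ 2 = y ^ 2 * X ^ 2 → x = X ∨ x = -X := by
    intro h
    have h3 : (p : ℤ) * (Y ^ 2 - y ^ 2) = 0 := by
      have : x ^ 2 * Y ^ 2 - y ^ 2 * X ^ 2 = (p : ℤ) * (Y ^ 2 - y ^ 2) := by
        linear_combination (-(Y ^ 2)) * h1 + y ^ 2 * h2
      rw [← this, h, sub_self]
    have h4 : Y ^ 2 - y ^ 2 = 0 := (mul_eq_zero.1 h3).resolve_left hp0.ne'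
    have h5 : x ^ 2 = X ^ 2 := by linear_combination h2 - h1 + 2 * h4
    exact sq_eq_sq_iff_eq_or_eq_neg.1 h5
  have hd : (p : ℤ) ∣ (x * Y - y * X) * (x * Y + y * X) := by
    refine ⟨Y ^ 2 - y ^ 2, ?_⟩
    linear_combination (-(Y ^ 2)) * h1 + y ^ 2 * h2
  have small : ∀ c z : ℤ, (p : ℤ) ^ 2 = z ^ 2 + 2 * ((p : ℤ) * c) ^ 2 → c = 0 := by
    intro c z h
    by_contra hc
    have hc2 : 1 ≤ c ^ 2 := by
      have : 0 < c ^ 2 := by positivity
      omega
    nlinarith [sq_nonneg z, mul_pos hp0 hp0]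
  rcases hpr.dvd_or_dvd hd with ⟨c, hc⟩ | ⟨c, hc⟩
  · have hc0 := small c (x * X + 2 * y * Y) (by
      rw [← hc]
      linear_combination (x ^ 2 + 2 * y ^ 2) * h2 + (p : ℤ) * h1)
    apply key
    rw [hc0, mul_zero] at hc
    linear_combination (x * Y + y * X) * hc
  · have hc0 := small c (x * X - 2 * y * Y) (by
      rw [← hc]
      linear_combination (x ^ 2 + 2 * y ^ 2) * h2 + (p : ℤ) * h1)
    apply key
    rw [hc0, mul_zero] at hc
    linear_combination (x * Y - y * X) * hc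

end Pool.Agent.Lib.H66SC
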